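import Pool.Agent.Helper27.RV.St

/-!
# Project RV: statements of the modules about the filter

Always `Sit κ W A t l f` is the situation of `Pool/Agent/Helper36/VC/Defs.lean` (read it first): tools
`Sit.mono`, `Sit.all`, `Sit.cover`, `Sit.cover_countable`, `Sit.const`, `Sit.loc`, `Sit.lt_k`, `Sit.k_lt`,
`Sit.vals`; in `Pool/Agent/Helper65/GS/Bas.lean`: `not_pos`, `Pos.ae`, `Pos.mono`, `Pos.nonempty`,
`Pos.exists_of_cover`, `countable_of_ae_ne`, `Rep.mono`, `Rep.lt_of_lt`, `Rep.le_of_le`, `Rep.eq_of_eq`,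
`Rep.val`. `Rep.onto` is the field: every function below `t` on a positive set agrees with some `f a`
on a positive subset.
-/

set_option autoImplicit false

open Cardinal Ordinal Set Filter

universe u

namespace Pool.Agent.Helper27.RV

open Pool.Agent.Helper65.GS Pool.Agent.Helper36.VC

/-- MODULE SPR (110 lines). Fewer than `κ` functions dominate. PROOF. Let `F = L → ℕ → D`. If `F` is empty
take `Q = PEmpty` (if `L` is not empty and `D` is empty). Suppose `F` is not empty.
`#F = #D ^ (#L * ℵ₀) ≤ (2 ^ #D) ^ (#L * ℵ₀) ≤ κ` by the hypothesis for `a = max (max #L #D) ℵ₀ < κ`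
(`2 ^ (#D * (#L * ℵ₀)) ≤ 2 ^ a`). So there is a surjection `b : X → F` (`#X = κ`; `enum_set` with `K = X`).
Fix a well-order of `X` of order type `κ.ord`: let `e : X → Ordinal` be injective with values `< κ.ord`
(`#X = #κ.ord.ToType`). Suppose the statement fails. For every `x : X` the family `b y`, `e y < e x`
(fewer than `κ` functions: the set `{y | e y < e x}` injects into the ordinals below `e x`) does not
dominate: choose `v x : F` such that for all `y` with `e y < e x` not (`∀ l n, ∃ n', v x l n = b y l n'`).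
For `l, n` the sets `{x | v x l n = d}`, `d : D`, are disjoint, so by `Saturated` only countably many `d`
have them positive; let `V l n` be this set; as `#D < κ`, `v x l n ∈ V l n` for almost all `x`, and as
`#(L × ℕ) < κ` almost all `x` have this for all `l, n` (`eventually_cardinal_forall`). `V l n` is not empty
(`W` is proper: `Pos W univ`). Let `B l : ℕ → D` list `⋃ n, V l n` (countable and not empty). `B = b y` for
some `y`. Almost all `x` have `e y < e x` (the complement is covered by fewer than `κ` points, each of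
which is null). So some `x` has `e y < e x` and `v x l n ∈ range (B l) = range (b y l)` for all `l, n`:
contradiction. -/
def StSPR : Prop := ∀ {X : Type u} (κ : Cardinal.{u}) (W : Filter X), κ.IsRegular → ℵ₀ < κ →
    #X = κ → CardinalInterFilter W κ → Saturated W → (∀ x, {x}ᶜ ∈ W) → Pos W (Set.univ : Set X) →
    (∀ a < κ, (2 : Cardinal.{u}) ^ a ≤ κ) → ∀ L D : Type u, #L < κ → #D < κ → DomLT κ L D

/-- MODULE SPC (110 lines; strong). Closing off. PROOF. Let `a < κ` and `δ < κ`, and let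
`λ = succ (max a ℵ₀) < κ`, a regular uncountable cardinal. For every ordinal `γ < κ.ord` let `F γ < κ.ord` be
an ordinal such that at most `(F γ).card` functions dominate all functions `a.out → ℕ → γ.ToType`
(hypothesis; `F γ = (#Q).ord`). By recursion on `i < λ.ord` define `x i < κ.ord`: an ordinal which is
larger than `δ.ord`, than `x j` and than `F (x j)` for all `j < i` (bounded since `i.card < λ < κ` and `κ` is
regular; define it as a supremum of `+ 1` over `j : i.ToType`, by `WellFounded.fix`, or directly on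
the type `λ.ord.ToType`). Let `γ` be the supremum of all `x i`, `i < λ.ord`; `γ < κ.ord` (`λ < κ`) and
`δ' = γ.card ≥ δ`. (a) If `y : a.out → ℕ → Ordinal` has all values `< γ` there is `i < λ.ord` with all
values `< x i`: each value is `< x (j e n)` for some `j e n < λ.ord`, and `#(a.out × ℕ) < λ` which is
regular, so the `j e n` are bounded by some `i < λ.ord` (`exists_bd`), and `x` is monotone. (b) So all
such `y` are dominated by the functions dominating the functions into `(x i).ToType`, `i < λ.ord`; their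
number is at most `Σ i, (F (x i)).card ≤ λ * δ' = δ'`, as `F (x i) < x (i + 1) < γ` and
`λ ≤ γ.card` (the `x i` are different ordinals below `γ`). So `δ'` functions `a.out → ℕ → γ.ToType`
dominate all such functions (list them by `δ'.out`; for `SP` repeat some if necessary), and
`#γ.ToType = δ' = #δ'.out` gives `SP a.out δ'.out`. -/
def StSPC : Prop := ∀ κ : Cardinal.{u}, κ.IsRegular → ℵ₀ < κ → (∀ a < κ, Order.succ a < κ) →
    (∀ L D : Type u, #L < κ → #D < κ → DomLT κ L D) →
    ∀ a < κ, ∀ d < κ, ∃ d' < κ, d ≤ d' ∧ SP a.out d'.out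

/-- MODULE LMK (30 lines). PROOF. Let `a < κ`. The hypothesis for the constant function `h = a.ord` gives a
weakly inaccessible `b < κ.ord` closed under `h`, so `a.ord < b` (`0 < b`), and a cardinal `c` with
`a.ord < c < b`. So `a < c.card`, and `succ a ≤ c.card ≤ b.card < κ`. -/
def StLMK : Prop := ∀ (κ : Cardinal.{u}) (T : Ordinal.{u} → Prop),
    (∀ h : Ordinal.{u} → Ordinal.{u}, (∀ e < κ.ord, h e < κ.ord) →
      ∃ a < κ.ord, WInacc a ∧ (∀ e < a, h e < a) ∧ T a) →
    ∀ a < κ, Order.succ a < κ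

/-- MODULE LAM (100 lines). The value of `t > κ` is larger than `2 ^ κ`. PROOF. Let `k x = f κ.ord x`. By
`Rep.val` there is `c < l` such that `B = {x ∈ A | f c x = κ.ord}` is positive. For every ordinal
`b < κ.ord` let `code b : Set Ordinal → Ordinal` be such that `code b Y < κ.ord` and
`code b Y = code b Y'` implies `Y ∩ Iio b = Y' ∩ Iio b` (`#(Set b.ToType) = 2 ^ b.card ≤ κ`). For
`Y : Set κ.ord.ToType` (there are `2 ^ κ` of them) let `h_Y x = code (k x) {a | a ∈ Y}` (the ordinals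
corresponding to elements of `Y`). If `Y ≠ Y'`, say they differ at `ξ < κ.ord`, then `ξ < k x < κ.ord` for
almost all `x ∈ A` (`Sit.lt_k`, `Sit.k_lt`), so `h_Y x ≠ h_Y' x`. For almost all `x ∈ B`,
`h_Y x < κ.ord = f c x < t`, so by `Rep.onto` there is `e < l` with `h_Y x = f e x` on a positive subset of
`B`, and `e < c` by `Rep.lt_of_lt`. For each `e` the set of the `Y` with `Pos W {x ∈ B | h_Y x = f e x}` is
countable: the sets `{x ∈ B | h_Y x = f e x}` are positive with null intersections (`Saturated`, as in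
the proof of `countable_of_ae_ne`). So `2 ^ κ ≤ c.card * ℵ₀` (union over `e : c.ToType` of countable
sets), which is `< l.card`, as `l` is a cardinal, `c < l` and `ℵ₀ < κ < l.card`. -/
def StLAM : Prop := ∀ {X : Type u} (κ : Cardinal.{u}) (W : Filter X) (A : Set X)
    (t l : Ordinal.{u}) (f : Ordinal.{u} → X → Ordinal.{u}), Sit κ W A t l f → κ.ord < t →
    IsCard l → (∀ a < κ, (2 : Cardinal.{u}) ^ a ≤ κ) → (2 : Cardinal.{u}) ^ κ < l.card

/-- MODULE TKK (50 lines). The value of `κ` is at most `2 ^ κ`. PROOF. To `y : l.ToType` assign the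
function `X → κ.ord.ToType`, `x ↦ f y x` if `f y x < κ.ord` and `0` otherwise. It is injective: if `y < y'`
have the same image then `f y x = f y' x` for almost all `x ∈ A` (`Rep.bd`), and `f y x < f y' x` for
almost all `x ∈ A`, but `A` is positive. So `l.card ≤ κ ^ κ = 2 ^ κ` (`Cardinal.power_self_eq`). -/
def StTKK : Prop := ∀ {X : Type u} (κ : Cardinal.{u}) (W : Filter X) (A : Set X)
    (l : Ordinal.{u}) (f : Ordinal.{u} → X → Ordinal.{u}), Sit κ W A κ.ord l f →
    l.card ≤ (2 : Cardinal.{u}) ^ κ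

/-- MODULE GFN (100 lines). PROOF. Let `k x = f κ.ord x`. Case 1: `κ ≤ t.cof`. Let `U' = U`. For `x` with
`k x < κ.ord` let `g x < t` be larger than all `s a`, `a ∈ U`, `a < k x` (`exists_bd` with
`Q = (k x).ToType`, `#Q < κ`; use `0` for `a ∉ U`, `0 < t`). `A' = {x ∈ A | k x < κ.ord}` is positive
(`Sit.k_lt`); by `Rep.onto` `g x = f th x` on a positive `B ⊆ A'` for some `th < l`. For `a ∈ U`, `a < κ.ord`,
`a < k x` for almost all `x ∈ A` (`Sit.lt_k`), so `s a ≤ g x = f th x` for almost all `x ∈ B`.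
(In the conclusion only `a ∈ U'` with `a < κ.ord` occur.) Case 2: `t.cof < κ`. Let
`g : G → Ordinal`, `#G = t.cof`, be cofinal in `t` (`enum_cof` with `K = t.cof.out`). For `a ∈ U` choose
`i a : G` with `s a ≤ g (i a)`. Some `i0 : G` has `{a ∈ U | i a = i0}` unbounded in `κ.ord`: otherwise let
`b i < κ.ord` be a bound for each `i`, and `b' < κ.ord` larger than all `b i` (`exists_bd`, `κ` regular,
`#G < κ`): contradiction to the unboundedness of `U`. Let `U'` be this set. By `Rep.val` for `g i0 < t`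
there is `th < l` with `f th x = g i0` on a positive subset `B` of `A`. -/
def StGFN : Prop := ∀ {X : Type u} (κ : Cardinal.{u}) (W : Filter X) (A : Set X)
    (t l : Ordinal.{u}) (f : Ordinal.{u} → X → Ordinal.{u}), Sit κ W A t l f →
    ∀ (U : Set Ordinal.{u}) (s : Ordinal.{u} → Ordinal.{u}), (∀ a ∈ U, s a < t) →
    (∀ a0 < κ.ord, ∃ a ∈ U, a0 < a ∧ a < κ.ord) →
    ∃ U' ⊆ U, (∀ a0 < κ.ord, ∃ a ∈ U', a0 < a ∧ a < κ.ord) ∧ ∃ B ⊆ A, Pos W B ∧ ∃ th < l,
      ∀ a ∈ U', a < κ.ord → ∀ᶠ x in W, x ∈ B → s a ≤ f th x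

/-- MODULE NCV (80 lines). PROOF. For `y < t` and `S0 : Ordinal → a.ToType → Ordinal` let
`C i e = S0 i (ToType.mk ⟨e, h⟩)` if `h : e < a` and `0` otherwise. As `CovLT s a t` fails (for `c = y`) there is
`z : Ordinal → Ordinal` with `z e < s` for `e < a` such that for all `b < a` and all `I` with `I n < y`
(`n < b`) some `e < a` has `z e ≠ C (I n) e'` for all `n < b`, `e' < a`. Let `T y S0 e = z e.toOrd`. By
well-founded recursion (`WellFounded.fix`, `WellFounded.fix_eq`) there is `S` with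
`S y = T y (fun b => if b < y then S b else 0)` for `y < t`. If `univ ∈ KN δ S y` by `Q`, `q`, let
`b = (#Q).ord < a` (`#Q ≤ δ < a.card`) and let `I` list the values of `q`: `I n = q (φ n)` for a bijection
`φ` of `b.ToType` with `Q`. Contradiction. -/
def StNCV : Prop := ∀ (s a t : Ordinal.{u}) (δ : Cardinal.{u}), δ < a.card → ¬ CovLT s a t →
    ∃ S : Ordinal.{u} → a.ToType → Ordinal.{u}, ∀ y < t, (∀ e, S y e < s) ∧
      Set.univ ∉ KN δ S y

/-- MODULE WY (90 lines). PROOF. `f y x < t` for almost all `x ∈ A` (`Rep.bd`). For `e : β` let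
`C e = {c ∈ Iio l | Pos W {x ∈ A | f c x = S (f y x) e}}`, countable by `countable_of_ae_ne` (its
hypothesis from `Rep.inc`, as in `Rep.countable_val`). (i) If `c ∈ C e` then on a positive set
`f c x = S (f y x) e < s ≤ f th x`, so `c < th` (`Rep.lt_of_lt`, `Pos.ae`). (ii) `C e` is not empty and for
almost all `x ∈ A` there is `c ∈ C e` with `S (f y x) e = f c x`: otherwise the set
`B = {x ∈ A | f y x < t ∧ ∀ c ∈ C e, S (f y x) e ≠ f c x}` is positive, and `g x = S (f y x) e < s ≤ t` on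
`B`, so `Rep.onto` gives `c < l` with `Pos W {x ∈ B | g x = f c x}`; so `c ∈ C e`, contradiction. Let
`w e : ℕ → Ordinal` have range `C e` (`Set.Countable.exists_eq_range`). As `#β < κ` almost all `x ∈ A` have
the property for all `e` (`eventually_cardinal_forall`, `h.compl`). -/
def StWY : Prop := ∀ {X : Type u} (κ : Cardinal.{u}) (W : Filter X) (A : Set X)
    (t l : Ordinal.{u}) (f : Ordinal.{u} → X → Ordinal.{u}), Sit κ W A t l f →
    ∀ (β : Type u) (th s : Ordinal.{u}) (S : Ordinal.{u} → β → Ordinal.{u}), #β < κ → th < l →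
    s ≤ t → (∀ v < t, ∀ e, S v e < s) → (∀ᶠ x in W, x ∈ A → s ≤ f th x) →
    ∀ y < l, ∃ w : β → ℕ → Ordinal.{u}, (∀ e n, w e n < th) ∧
      ∀ᶠ x in W, x ∈ A → ∀ e, ∃ n, S (f y x) e = f (w e n) x

/-- MODULE KNU (30 lines). PROOF. Subsets: clear. Unions: choose `Q i`, `q i` for every `i : I0` and take
`Σ i, Q i`, `#(Σ i, Q i) ≤ δ * δ = δ`. Last: `Q = PUnit`, `q _ = w`, `e' = e`. -/
def StKNU : Prop := ∀ (β : Type u) (δ : Cardinal.{u}) (S : Ordinal.{u} → β → Ordinal.{u}), ℵ₀ ≤ δ →
    (∀ v (Y Z : Set β), Y ⊆ Z → Z ∈ KN δ S v → Y ∈ KN δ S v) ∧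
    (∀ v (I0 : Type u) (Y : I0 → Set β), #I0 ≤ δ → (∀ i, Y i ∈ KN δ S v) →
      (⋃ i, Y i) ∈ KN δ S v) ∧
    (∀ v w, w < v → {e | S v e = S w e} ∈ KN δ S v)

/-- MODULE LQ (theorem: StWY → StKNU → StLQ; 80 lines). PROOF. Let `y < l` and `w` from StWY. As
`#(β × ℕ) = #β` the covering hypothesis applied to `w` (through a bijection `β ≃ β × ℕ`) gives
`I : Set ι`, `#I ≤ δ`, with `∀ e n, ∃ i ∈ I, ∃ k, w e n = P i k`. For almost all `x ∈ A`: `f y x < t` and for
all `e` there are `i ∈ I`, `k` with `S (f y x) e = f (P i k) x`. For such `x` some `i ∈ I` has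
`Y i x = {e | ∃ k, S (f y x) e = f (P i k) x} ∉ KN δ S (f y x)`: otherwise their union over `I`, `univ`, is
in `KN δ S (f y x)` (StKNU), contradiction. As `#I ≤ δ < κ`, `Pos.exists_of_cover` (with `ι = I`, the
positive set being `A` minus the null set) gives `i ∈ I` with `Pos W {x ∈ A | Y i x ∉ KN δ S (f y x)}`. -/
def StLQ : Prop := ∀ {X : Type u} (κ : Cardinal.{u}) (W : Filter X) (A : Set X)
    (t l : Ordinal.{u}) (f : Ordinal.{u} → X → Ordinal.{u}), Sit κ W A t l f →
    ∀ (K β ι : Type u) (δ : Cardinal.{u}) (th s : Ordinal.{u})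
      (S : Ordinal.{u} → β → Ordinal.{u}) (P : ι → K → Ordinal.{u}), ℵ₀ ≤ #β → #β < κ →
    ℵ₀ ≤ δ → δ < κ → th < l → s ≤ t → (∀ v < t, ∀ e, S v e < s) →
    (∀ v < t, Set.univ ∉ KN δ S v) → (∀ᶠ x in W, x ∈ A → s ≤ f th x) →
    (∀ y : β → Ordinal.{u}, (∀ e, y e < th) → ∃ I : Set ι, #I ≤ δ ∧ ∀ e, ∃ i ∈ I, ∃ k, y e = P i k) →
    ∀ y < l, ∃ i, Pos W {x ∈ A | {e | ∃ k, S (f y x) e = f (P i k) x} ∉ KN δ S (f y x)}

/-- MODULE LCT (theorem: StDSM → StKNU → StLCT; 110 lines). PROOF. For `x : X` let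
`D x = {v : t.ToType | {e | ∃ k, S v e = f (p k) x} ∉ KN δ S v}` (`v` also denotes the ordinal `v.toOrd`). By
StDSM for `Λ = β`, `T = t.ToType`, `r = toOrd`, `N v = KN δ S v.toOrd`, the box `fun _ k => f (p k) x` and
StKNU, `#(D x) ≤ #K` (`#K ^ #β ≤ #K ^ κ ≤ #K`, `2 ^ #β ≤ 2 ^ κ ≤ #K`). So there is `d x : K → Ordinal` such that
every `v < t` with `{e | ∃ k, S v e = f (p k) x} ∉ KN δ S v` is some `d x k` (`enum_set`; arbitrary if
`D x` is empty). For `y : l.ToType` in the set
`Q = {y | Pos W {x ∈ A | {e | ∃ k, S (f y x) e = f (p k) x} ∉ KN δ S (f y x)}}` let `Y y` be the set of the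
`x` in this positive set with `f y x < t` (positive by `Rep.bd`, `Pos.ae`) and `ξ y : X → K` with
`f y x = d x (ξ y x)` for `x ∈ Y y`. The map `y ↦ (Y y, ξ y)` is injective on `Q`: if `y < y'` have the same
image then `f y x = f y' x` on the positive set `Y y`, contradiction to `Rep.inc`. So
`#Q ≤ #(Set X × (X → K)) = 2 ^ κ * #K ^ κ ≤ #K`, and `enum_set` gives `q`. -/
def StLCT : Prop := ∀ {X : Type u} (κ : Cardinal.{u}) (W : Filter X) (A : Set X)
    (t l : Ordinal.{u}) (f : Ordinal.{u} → X → Ordinal.{u}), Sit κ W A t l f →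
    ∀ (K β : Type u) (δ : Cardinal.{u}) (S : Ordinal.{u} → β → Ordinal.{u})
      (p : K → Ordinal.{u}), #β < κ → ℵ₀ ≤ δ → #K ^ κ ≤ #K → (2 : Cardinal.{u}) ^ κ ≤ #K →
    ∃ q : K → Ordinal.{u}, ∀ y < l,
      Pos W {x ∈ A | {e | ∃ k, S (f y x) e = f (p k) x} ∉ KN δ S (f y x)} → ∃ k, q k = y

/-- MODULE LFI (theorem: StLQ → StLCT → StLFI; 60 lines). PROOF. Let `ι, P` witness `Cov`, `#ι < l.card`. For
every `i` let `q i : K → Ordinal` be given by StLCT for `p = P i`. By StLQ every `y < l` is some `q i k`. So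
`l.card = #(l.ToType) ≤ #(ι × K) = #ι * #K < l.card` (`Cardinal.mul_lt_of_lt`; `l.card` is infinite),
contradiction. -/
def StLFI : Prop := ∀ {X : Type u} (κ : Cardinal.{u}) (W : Filter X) (A : Set X)
    (t l : Ordinal.{u}) (f : Ordinal.{u} → X → Ordinal.{u}), Sit κ W A t l f →
    ∀ (K β : Type u) (δ : Cardinal.{u}) (th s : Ordinal.{u})
      (S : Ordinal.{u} → β → Ordinal.{u}), ℵ₀ ≤ #β → #β < κ → ℵ₀ ≤ δ → δ < κ → th < l →
    s ≤ t → (∀ v < t, ∀ e, S v e < s) → (∀ v < t, Set.univ ∉ KN δ S v) →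
    (∀ᶠ x in W, x ∈ A → s ≤ f th x) → #K ^ κ ≤ #K → (2 : Cardinal.{u}) ^ κ ≤ #K →
    #K < l.card → ¬ Cov K β δ l.card th

end Pool.Agent.Helper27.RV
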