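import Pool.Agent.Helper27.RV.AsmR
import Pool.Agent.Helper27.RV.StL
import Pool.Agent.Helper36.VC.StMain

/-!
# Project RV: the theorem on values of ordinals from the modules
-/

set_option autoImplicit false

open Cardinal Ordinal Set Filter

universe u

namespace Pool.Agent.Helper27.RV

open Pool.Agent.Helper65.GS Pool.Agent.Helper36.VC

theorem Cov.congr {K β β' : Type u} {δ m : Cardinal.{u}} {t : Ordinal.{u}} (hβ : #β = #β')
    (h : Cov K β δ m t) : Cov K β' δ m t := by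
  obtain ⟨e⟩ := Cardinal.eq.1 hβ
  obtain ⟨ι, hι, P, hP⟩ := h
  refine ⟨ι, hι, P, fun y hy => ?_⟩
  obtain ⟨I, hI, h1⟩ := hP (fun b => y (e b)) (fun b => hy _)
  refine ⟨I, hI, fun b => ?_⟩
  obtain ⟨i, hi, k, hk⟩ := h1 (e.symm b)
  exact ⟨i, hi, k, by simpa using hk⟩

theorem isCard_of_winacc {a : Ordinal.{u}} (h : WInacc a) : a.card.ord = a := by
  have h1 := h.2.1
  apply le_antisymm (ord_card_le a)
  rw [← h1]
  apply ord_le_ord.2
  rw [h1]
  exact cof_le_card a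

/-- the case `t > κ` -/
theorem big (hR : StR.{u}) (hSPC : StSPC.{u}) (hLMK : StLMK.{u}) (hGFN : StGFN.{u})
    (hNCV : StNCV.{u}) (hLFI : StLFI.{u}) (hMA : StMainA.{u})
    {X : Type u} (κ : Cardinal.{u}) (W : Filter X) (A : Set X)
    (t l : Ordinal.{u}) (f : Ordinal.{u} → X → Ordinal.{u}) (hS : Sit κ W A t l f)
    (ht : κ.ord < t) (htl : t < l) (hl : IsCard l)
    (hDom : ∀ L D : Type u, #L < κ → #D < κ → DomLT κ L D) (K : Type u)
    (hK1 : #K ^ κ ≤ #K) (hK2 : ∀ a < κ, (2 : Cardinal.{u}) ^ ((2 : Cardinal.{u}) ^ a) ≤ #K)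
    (hKl : #K < l.card) : False := by
  have hmain : ∀ h : Ordinal.{u} → Ordinal.{u}, (∀ e < κ.ord, h e < κ.ord) →
      ∃ a < κ.ord, WInacc a ∧ (∀ e < a, h e < a) ∧ ∃ s < t, ¬ CovLT s a t :=
    hMA κ hS.reg hS.unc hS.card W hS.compl hS.non hS.sat A hS.pos t l ⟨f, hS.rep⟩ ht htl hl
  have hlim := hLMK κ (fun a => ∃ s < t, ¬ CovLT s a t) hmain
  have hSP := hSPC κ hS.reg hS.unc hlim hDom
  have hκ1 : ℵ_ 1 < κ := by
    have := hlim ℵ₀ hS.unc
    rwa [succ_aleph0] at this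
  have hKinf : ℵ₀ ≤ #K := by
    have := hK2 ℵ₀ hS.unc
    exact ((cantor _).le.trans (cantor _).le).trans this
  have hK0 : #K ≠ 0 := (aleph0_pos.trans_le hKinf).ne'
  have hpow : ∀ a < κ, #K ^ a ≤ #K := fun a ha => (power_le_power_left hK0 ha.le).trans hK1
  have hK3 : (2 : Cardinal.{u}) ^ κ ≤ #K :=
    (power_le_power_right ((natCast_le_aleph0 (n := 2)).trans hKinf)).trans hK1
  set U : Set Ordinal.{u} := {a | WInacc a ∧ ∃ s < t, ¬ CovLT s a t} with hU
  have hUs : ∀ a : Ordinal.{u}, ∃ s : Ordinal.{u}, a ∈ U → (s < t ∧ ¬ CovLT s a t) := by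
    intro a
    by_cases ha : a ∈ U
    · obtain ⟨s, h1, h2⟩ := ha.2
      exact ⟨s, fun _ => ⟨h1, h2⟩⟩
    · exact ⟨0, fun h => absurd h ha⟩
  choose s hs using hUs
  have hunb : ∀ a0 < κ.ord, ∃ a ∈ U, a0 < a ∧ a < κ.ord := by
    intro a0 ha0
    obtain ⟨a, h1, h2, h3, h4⟩ := hmain (fun _ => a0) (fun _ _ => ha0)
    exact ⟨a, ⟨h2, h4⟩, h3 0 (omega0_pos.trans h2.1), h1⟩
  obtain ⟨U', hU', hunb', B, hBA, hB, th, hth, hsth⟩ :=
    hGFN κ W A t l f hS U s (fun a ha => (hs a ha).1) hunb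
  set m : Cardinal.{u} := Order.succ (max th.card #K) with hm
  have hmreg : m.IsRegular := isRegular_succ (hKinf.trans (le_max_right _ _))
  have hml : m ≤ l.card := by
    apply Order.succ_le_of_lt
    refine max_lt ?_ hKl
    have h1 : th < l.card.ord := by
      have := hl
      unfold IsCard at this
      rwa [this]
    exact lt_ord.1 h1
  obtain ⟨d, hd, hcov⟩ := hR κ K hκ1 hpow hK2 hSP m hmreg
    ((le_max_right _ _).trans_lt (Order.lt_succ _))
  have hδ : max d ℵ₀ < κ := max_lt hd hS.unc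
  obtain ⟨a, haU, hda, haκ⟩ := hunb' (max d ℵ₀).ord (ord_lt_ord.2 hδ)
  have haU2 := hU' haU
  have hacard : a.card.ord = a := isCard_of_winacc haU2.1
  have hda2 : max d ℵ₀ < a.card := by
    rw [← hacard] at hda
    exact ord_lt_ord.1 hda
  have haκ2 : a.card < κ := lt_ord.1 haκ
  have h1 : Cov K a.ToType (max d ℵ₀) l.card th := by
    have h2 := hcov a.card haκ2 th (lt_ord.2 ((le_max_left _ _).trans_lt (Order.lt_succ _)))
    exact (h2.congr (by rw [mk_out, mk_toType])).mono (le_max_left _ _) hml le_rfl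
  obtain ⟨S, hSS⟩ := hNCV (s a) a t (max d ℵ₀) hda2 (hs a haU2).2
  exact hLFI κ W B t l f (hS.mono hBA hB) K a.ToType (max d ℵ₀) th (s a) S
    (by rw [mk_toType]; exact (le_max_right _ _).trans hda2.le) (by rwa [mk_toType])
    (le_max_right _ _) hδ hth (hs a haU2).1.le (fun v hv => (hSS v hv).1)
    (fun v hv => (hSS v hv).2) (hsth a haU haκ) hK1 hK3 hKl h1

/-- the case of values above a strong cardinal bound, for arbitrary `κ` -/
theorem above (hR : StR.{u}) (hSPC : StSPC.{u}) (hLMK : StLMK.{u}) (hGFN : StGFN.{u})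
    (hNCV : StNCV.{u}) (hLFI : StLFI.{u}) (hMA : StMainA.{u}) (hTKK : StTKK.{u})
    (hSM : StSMALL.{u})
    {X : Type u} (κ : Cardinal.{u}) (hreg : κ.IsRegular) (hunc : ℵ₀ < κ)
    (hX : #X = κ) (W : Filter X) (hW : CardinalInterFilter W κ) (hnon : ∀ x, {x}ᶜ ∈ W)
    (hsat : Saturated W) (A : Set X) (hA : Pos W A) (t l : Ordinal.{u})
    (hf : Forces W A t l) (htl : t < l) (hl : IsCard l)
    (hDom : ∀ L D : Type u, #L < κ → #D < κ → DomLT κ L D) (θ : Cardinal.{u})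
    (hθ1 : θ ^ κ ≤ θ) (hθ2 : ∀ a < κ, (2 : Cardinal.{u}) ^ ((2 : Cardinal.{u}) ^ a) ≤ θ) :
    l.card ≤ θ := by
  by_contra hcon
  rw [not_le] at hcon
  obtain ⟨f, hf⟩ := hf
  have hκt : κ.ord ≤ t := hSM κ W A t l f ⟨hreg, hunc, hX, hW, hsat, hA, hf⟩ htl
  have hS : Sit κ W A t l f := ⟨hreg, hunc, hX, hW, hsat, hA, hf, hnon, hκt, hκt.trans_lt htl⟩
  rcases hκt.lt_or_eq with h | h
  · exact big hR hSPC hLMK hGFN hNCV hLFI hMA κ W A t l f hS h htl hl hDom θ.out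
      (by rwa [mk_out]) (by simpa only [mk_out] using hθ2) (by rwa [mk_out])
  · subst h
    have h1 := hTKK κ W A l f hS
    have h2 : (2 : Cardinal.{u}) ^ κ ≤ θ := by
      have h3 : (2 : Cardinal.{u}) ≤ θ := by
        have h4 := hθ2 0 (aleph0_pos.trans hunc)
        simpa using h4
      exact (power_le_power_right h3).trans hθ1
    exact absurd (h1.trans h2) (not_le.2 hcon)

/-- the case `2 ^ a ≤ κ` for all `a < κ` -/
theorem full (hR : StR.{u}) (hSPC : StSPC.{u}) (hLMK : StLMK.{u}) (hGFN : StGFN.{u})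
    (hNCV : StNCV.{u}) (hLFI : StLFI.{u}) (hMA : StMainA.{u}) (hMB : StMainB.{u})
    (hFC : StFC.{u}) (hSM : StSMALL.{u}) (hSPR : StSPR.{u}) (hLAM : StLAM.{u})
    {X : Type u} (κ : Cardinal.{u}) (hreg : κ.IsRegular) (hunc : ℵ₀ < κ)
    (hX : #X = κ) (W : Filter X) (hW : CardinalInterFilter W κ) (hnon : ∀ x, {x}ᶜ ∈ W)
    (hsat : Saturated W) (hk : ∀ a < κ, (2 : Cardinal.{u}) ^ a ≤ κ)
    (A : Set X) (hA : Pos W A) (t l : Ordinal.{u})
    (hf : Forces W A t l) (htl : t < l) : ¬ IsCard l := by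
  intro hl
  obtain ⟨f, hrep⟩ := id hf
  have hκt : κ.ord ≤ t := hSM κ W A t l f ⟨hreg, hunc, hX, hW, hsat, hA, hrep⟩ htl
  have hS : Sit κ W A t l f := ⟨hreg, hunc, hX, hW, hsat, hA, hrep, hnon, hκt, hκt.trans_lt htl⟩
  rcases hκt.lt_or_eq with h | h
  · have hDom := hSPR κ W hreg hunc hX hW hsat hnon (hA.mono (subset_univ A)) hk
    have h1 := hLAM κ W A t l f hS h hl hk
    refine big hR hSPC hLMK hGFN hNCV hLFI hMA κ W A t l f hS h htl hl hDom
      ((2 : Cardinal.{u}) ^ κ).out ?_ ?_ ?_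
    · rw [mk_out, ← power_mul, mul_eq_self hunc.le]
    · intro a ha
      rw [mk_out]
      exact power_le_power_left two_ne_zero (hk a ha)
    · rwa [mk_out]
  · subst h
    obtain ⟨a, ha, hwi, -, hn⟩ := (hMB κ hreg hunc hX W hW hnon hsat A hA l hf htl hl).1
      (fun _ => 0) (fun e he => (zero_le : 0 ≤ e).trans_lt he)
    exact hn (hFC κ a hwi.1 (hk _ (lt_ord.1 ha)))

end Pool.Agent.Helper27.RV
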