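import Pool.Agent.Helper27.RV.St

/-!
# Project RV: the revised GCH theorem from the modules
-/

set_option autoImplicit false

open Cardinal Ordinal Set

universe u

namespace Pool.Agent.Helper27.RV

open Pool.Agent.Helper65.GS

/-- The revised GCH theorem: if below `κ` functions to countable sets are dominated by few functions,
then for every regular `m > #K` there is `d < κ` such that for `b < κ`, `t < m` fewer than `m` sets of size
at most `#K` suffice to cover all functions from `b` to `t` by at most `d` of them. -/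
def StR : Prop := ∀ (κ : Cardinal.{u}) (K : Type u), ℵ_ 1 < κ → (∀ a < κ, #K ^ a ≤ #K) →
    (∀ a < κ, (2 : Cardinal.{u}) ^ ((2 : Cardinal.{u}) ^ a) ≤ #K) →
    (∀ a < κ, ∀ d < κ, ∃ d' < κ, d ≤ d' ∧ SP a.out d'.out) →
    ∀ m : Cardinal.{u}, m.IsRegular → #K < m →
      ∃ d < κ, ∀ b < κ, ∀ t < m.ord, Cov K b.out d m t

/-- the set of the hypotheses about sequences -/
def StCore : Prop := ∀ (K : Type u) (δ b : ℕ → Cardinal.{u}),
    (∀ n, #K ^ (b n) ≤ #K) → (∀ n, (2 : Cardinal.{u}) ^ ((2 : Cardinal.{u}) ^ (b n)) ≤ #K) →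
    (∀ n, ℵ_ 1 ≤ δ n) → (∀ n, δ n ≤ b n) → (∀ n, b n ≤ δ (n + 1)) →
    (∀ i n, i < n → SP (b i).out (δ n).out) →
    ∀ m : Cardinal.{u}, m.IsRegular → #K < m →
      ¬ {n | ∃ t < m.ord, ¬ Cov K (b n).out (δ n) m t}.Infinite

theorem core (hTN : StTN.{u}) (hATM : StATM.{u}) (hSTA : StSTA.{u}) (hTERM : StTERM.{u})
    (hDC : StDC.{u}) (hF1 : StF1.{u}) (hDW : StDW.{u}) (hDM : StDM.{u}) (hKEY : StKEY.{u})
    (hSPT : StSPT.{u}) (hFIN : StFIN.{u}) (hCUT : StCUT.{u}) : StCore.{u} := by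
  intro K δ b hpow hpp hδ hδb hbδ hSP m
  induction m using WellFoundedLT.induction with
  | _ m ih =>
    intro hreg hKm hA
    have hK : ℵ₀ ≤ #K := by
      have h1 : ℵ₀ ≤ b 0 := ((aleph0_le_aleph 1).trans (hδ 0)).trans (hδb 0)
      exact ((h1.trans (cantor _).le).trans (cantor _).le).trans (hpp 0)
    set A := {n | ∃ t < m.ord, ¬ Cov K (b n).out (δ n) m t} with hAdef
    have hex : ∀ n, ∃ t : Ordinal.{u}, n ∈ A → (t < m.ord ∧ ¬ Cov K (b n).out (δ n) m t ∧
        #K < t.card ∧ IsCard t ∧ δ n < t.cof ∧ t.cof ≤ b n) := by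
      intro n
      by_cases hn : n ∈ A
      · obtain ⟨t0, ht0, hc⟩ := hn
        obtain ⟨t, ht, h1, h2, h3, h4, h5⟩ := hTN K (b n).out (δ n) m t0 hreg hK hKm
          ((aleph0_le_aleph 1).trans (hδ n)) ht0 hc
        exact ⟨t, fun _ => ⟨ht.trans_lt ht0, h1, h2, h3, h4, by rwa [mk_out] at h5⟩⟩
      · exact ⟨0, fun h => absurd h hn⟩
    choose t ht using hex
    have hA' := hATM δ b m A t hA hδb hbδ
      (fun n hn => ⟨(ht n hn).1, (ht n hn).2.2.2.1, (ht n hn).2.2.2.2.1, (ht n hn).2.2.2.2.2⟩)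
    set A' := {n ∈ A | Order.succ (t n).card < m} with hA'def
    obtain ⟨n0, hn0⟩ := hA'.nonempty
    have hctx : Ctx K (b n0) m := ⟨((aleph0_le_aleph 1).trans (hδ n0)).trans (hδb n0), hpow n0,
      hpp n0, hreg, hKm⟩
    obtain ⟨J0, hJ0, hJ0p, hJ0L⟩ := hSTA K (b n0).out (b n0) (δ n0) m (t n0) hctx
      (by rw [mk_out]) (hδ n0) (ht n0 hn0.1).2.1
    obtain ⟨L, J, c, hJ, -, hL, hLar, hcM, hns⟩ := hTERM K (b n0) m m.ord (b n0).out J0
      (fun _ => t n0) hctx.inf hJ0 hJ0p (by rw [mk_out]) hJ0L (fun _ => (ht n0 hn0.1).1)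
    have hN : (A' \ Iic n0).Infinite := hA'.diff (finite_Iic n0)
    have hkey : ∀ n ∈ A' \ Iic n0, Small K m J c {l | IsCard (c l) ∧ ℵ₀ < (c l).cof ∧
        ∀ s < c l, Cov K (b n).out (δ n) (c l).card s} := by
      rintro n ⟨hn, hn0'⟩
      have hlt : n0 < n := by simpa using hn0'
      have hsp : SP L (δ n).out := by
        refine hSPT L (b n0).out (δ n).out (δ n).out ?_ ?_ rfl (hSP n0 n hlt)
        · rw [← mk_ne_zero_iff, mk_out]
          exact (aleph0_pos.trans_le ((aleph0_le_aleph 1).trans (hδ n))).ne'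
        · rwa [mk_out]
      have h := ht n hn.1
      have := hKEY K (b n0) m L (δ n).out (b n).out J c (t n) hctx hL hJ hLar hsp
        (by rw [mk_out]; exact hδ n)
        (by rw [mk_out]; exact ((aleph0_le_aleph 1).trans (hδ n)).trans (hδb n))
        h.2.2.1.le hn.2 (by rw [mk_out]; exact h.2.1)
      rwa [mk_out] at this
    obtain ⟨l, hl1, hl2, hl3, hl4⟩ := hFIN K m L J c (A' \ Iic n0) δ b hK hJ hns
      (hDC K m L J c hJ hLar)
      (hF1 K m L J c (one_lt_aleph0.trans_le hreg.aleph0_le) hLar)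
      (hDW K (b n0) m L J c hctx hL hJ hLar) (hDM K (b n0) m L J c hctx hL hJ hLar) hkey
    obtain ⟨m', hm', hreg', hKm', hR⟩ := hCUT K (c l) (A' \ Iic n0) δ b hK hl1 hl2 hl3 hl4
    have hlt : m' < m := hm'.trans_lt (lt_ord.1 (hcM l))
    exact ih m' hlt hreg' hKm' (hN.mono fun n hn => hR n hn)

theorem rgch (hcore : StCore.{u}) (hSEQ : StSEQ.{u}) : StR.{u} := by
  intro κ K hκ hpow hpp hSP m hreg hKm
  by_contra hcon
  push Not at hcon
  have hK : Nonempty K := by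
    rw [← mk_ne_zero_iff]
    intro h0
    have := hpp 0 (aleph0_pos.trans_le (aleph0_le_aleph 1) |>.trans hκ)
    rw [h0] at this
    simp at this
  obtain ⟨δ, b, hb, hδ, hδb, hbδ, hsp, hR⟩ := hSEQ κ K m hK hκ hSP hcon
  refine hcore K δ b (fun n => hpow _ (hb n)) (fun n => hpp _ (hb n)) hδ hδb hbδ hsp m hreg hKm ?_
  have : {n | ∃ t < m.ord, ¬ Cov K (b n).out (δ n) m t} = Set.univ := by
    ext n
    simpa using hR n
  rw [this]
  exact infinite_univ

end Pool.Agent.Helper27.RV
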