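import Pool.Agent.Helper36.VC.St

/-!
# Project RV: covering numbers at a quasi-measurable cardinal (definitions and small tools)
-/

set_option autoImplicit false

open Cardinal Ordinal Set

universe u

namespace Pool.Agent.Helper27.RV

/-- an ideal of subsets of `L` closed under unions of at most `ℵ₁` members -/
structure IsIdl {L : Type u} (J : Set (Set L)) : Prop where
  sub : ∀ B C : Set L, B ⊆ C → C ∈ J → B ∈ J
  un : ∀ (Q : Type u) (F : Q → Set L), #Q ≤ ℵ_ 1 → (∀ q, F q ∈ J) → (⋃ q, F q) ∈ J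

/-- `S` is covered on `B` by at most `ℵ₁` of the boxes `E i`, `i : ι` -/
def Cvd {L K ι : Type u} (E : ι → L → K → Ordinal.{u}) (S : L → ℕ → Ordinal.{u})
    (B : Set L) : Prop :=
  ∃ I : Set ι, #I ≤ ℵ_ 1 ∧ ∀ l ∈ B, ∀ n, ∃ i ∈ I, ∃ k, S l n = E i l k

/-- `c` is large on `X`: for any fewer than `m` boxes there is `S` below `c` on `X` which is covered
only on sets of the ideal `J` -/
def Large (K : Type u) (m : Cardinal.{u}) {L : Type u} (J : Set (Set L))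
    (c : L → Ordinal.{u}) (X : Set L) : Prop :=
  ∀ ι : Type u, #ι < m → ∀ E : ι → L → K → Ordinal.{u}, ∃ S : L → ℕ → Ordinal.{u},
    (∀ l ∈ X, ∀ n, S l n < c l) ∧ ∀ B ⊆ X, Cvd E S B → B ∈ J

/-- `B` is small: below `B` the function `c` can be replaced by a smaller large function, in an
extension with countable fibres -/
def Small (K : Type u) (m : Cardinal.{u}) {L : Type u} (J : Set (Set L))
    (c : L → Ordinal.{u}) (B : Set L) : Prop :=
  ∃ (L' : Type u) (p : L' → L) (J' : Set (Set L')) (c' : L' → Ordinal.{u}),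
    IsIdl J' ∧ (∀ y, p y ∈ B) ∧ (∀ l, (p ⁻¹' {l}).Countable) ∧
    (∀ X ⊆ B, p ⁻¹' X ∈ J' → X ∈ J) ∧ (∀ y, c' y < c (p y)) ∧ Large K m J' c' univ

/-- fewer than `m` sets `{P i k : k : K}` suffice to cover every function from `β` to `t` by at most
`δ` of them -/
def Cov (K β : Type u) (δ m : Cardinal.{u}) (t : Ordinal.{u}) : Prop :=
  ∃ ι : Type u, #ι < m ∧ ∃ P : ι → K → Ordinal.{u}, ∀ y : β → Ordinal.{u}, (∀ e, y e < t) →
    ∃ I : Set ι, #I ≤ δ ∧ ∀ e, ∃ i ∈ I, ∃ k, y e = P i k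

/-- `#D` functions from `L` to the countable subsets of `D` dominate all such functions -/
def SP (L D : Type u) : Prop :=
  ∃ V : D → L → ℕ → D, ∀ v : L → ℕ → D, ∃ d, ∀ l n, ∃ n', v l n = V d l n'

/-- fewer than `κ` functions from `L` to the countable subsets of `D` dominate all such functions -/
def DomLT (κ : Cardinal.{u}) (L D : Type u) : Prop :=
  ∃ Q : Type u, #Q < κ ∧ ∃ V : Q → L → ℕ → D, ∀ v : L → ℕ → D, ∃ q, ∀ l n, ∃ n', v l n = V q l n'

/-- the cardinal parameters -/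
structure Ctx (K : Type u) (al m : Cardinal.{u}) : Prop where
  inf : ℵ₀ ≤ al
  pow : #K ^ al ≤ #K
  pp : (2 : Cardinal.{u}) ^ ((2 : Cardinal.{u}) ^ al) ≤ #K
  reg : m.IsRegular
  lt : #K < m

/-- the sets of pairs on which `S a` is covered, off a member of `J`, by at most `ℵ₁` of the `S b`
with `r b < r a` -/
def Nul {T L : Type u} (J : Set (Set L)) (S : T → L → ℕ → Ordinal.{u}) (r : T → Ordinal.{u})
    (a : T) : Set (Set (L × ℕ)) :=
  {Y | ∃ X ∈ J, ∃ I : Set T, #I ≤ ℵ_ 1 ∧ (∀ b ∈ I, r b < r a) ∧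
    ∀ p ∈ Y, p.1 ∉ X → ∃ b ∈ I, ∃ n, S a p.1 p.2 = S b p.1 n}

/-- `S a` is not covered, modulo `J`, by at most `ℵ₁` of the `S b` with `r b < r a` -/
def Unc {T L : Type u} (J : Set (Set L)) (S : T → L → ℕ → Ordinal.{u}) (r : T → Ordinal.{u}) : Prop :=
  ∀ a (Q : Type u) (q : Q → T) (B : Set L), #Q ≤ ℵ_ 1 → (∀ i, r (q i) < r a) →
    (∀ l ∈ B, ∀ n, ∃ i n', S a l n = S (q i) l n') → B ∈ J

/-- the sets on which `S v` agrees with at most `δ` of the earlier sets `{S w e' : e' : β}` -/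
def KN {β : Type u} (δ : Cardinal.{u}) (S : Ordinal.{u} → β → Ordinal.{u}) (v : Ordinal.{u}) :
    Set (Set β) :=
  {z | ∃ (Q : Type u) (q : Q → Ordinal.{u}), #Q ≤ δ ∧ (∀ i, q i < v) ∧
    ∀ e ∈ z, ∃ i e', S v e = S (q i) e'}

section tools

variable {K : Type u} {m : Cardinal.{u}} {L : Type u} {J : Set (Set L)} {c : L → Ordinal.{u}}

theorem IsIdl.empty (h : IsIdl J) : ∅ ∈ J := by
  have := h.un PEmpty (fun _ => ∅) (by simp) (fun q => q.elim)
  simpa using this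

theorem IsIdl.seq (h : IsIdl J) (F : ℕ → Set L) (hF : ∀ n, F n ∈ J) : (⋃ n, F n) ∈ J := by
  have h1 := h.un (ULift.{u} ℕ) (fun n => F n.down) (by
    rw [mk_uLift, mk_nat, lift_aleph0]
    exact aleph0_le_aleph 1) (fun n => hF n.down)
  have h2 : (⋃ n, F n) = ⋃ n : ULift.{u} ℕ, F n.down := by
    ext x
    simp only [mem_iUnion]
    exact ⟨fun ⟨n, hn⟩ => ⟨⟨n⟩, hn⟩, fun ⟨n, hn⟩ => ⟨n.down, hn⟩⟩
  rwa [h2]

theorem IsIdl.union (h : IsIdl J) {A B : Set L} (hA : A ∈ J) (hB : B ∈ J) : A ∪ B ∈ J := by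
  have h1 := h.seq (fun n => if n = 0 then A else B) (fun n => by
    by_cases hn : n = 0
    · simpa [hn] using hA
    · simpa [hn] using hB)
  refine h.sub _ _ ?_ h1
  rintro x (hx | hx)
  · exact mem_iUnion.2 ⟨0, by simpa using hx⟩
  · exact mem_iUnion.2 ⟨1, by simpa using hx⟩

theorem Cvd.mono {ι : Type u} {E : ι → L → K → Ordinal.{u}} {S : L → ℕ → Ordinal.{u}}
    {B B' : Set L} (h : Cvd E S B) (hB : B' ⊆ B) : Cvd E S B' := by
  obtain ⟨I, hI, h1⟩ := h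
  exact ⟨I, hI, fun l hl => h1 l (hB hl)⟩

theorem Large.mono {X X' : Set L} (h : Large K m J c X) (hX : X' ⊆ X) : Large K m J c X' := by
  intro ι hι E
  obtain ⟨S, h1, h2⟩ := h ι hι E
  exact ⟨S, fun l hl => h1 l (hX hl), fun B hB => h2 B (hB.trans hX)⟩

theorem Cov.mono {K β : Type u} {δ δ' m m' : Cardinal.{u}} {t t' : Ordinal.{u}}
    (h : Cov K β δ m t) (hδ : δ ≤ δ') (hm : m ≤ m') (ht : t' ≤ t) : Cov K β δ' m' t' := by
  obtain ⟨ι, hι, P, hP⟩ := h
  refine ⟨ι, hι.trans_le hm, P, fun y hy => ?_⟩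
  obtain ⟨I, hI, h1⟩ := hP y (fun e => (hy e).trans_le ht)
  exact ⟨I, hI.trans hδ, h1⟩

theorem Ctx.aleph0_le {al : Cardinal.{u}} (h : Ctx K al m) : ℵ₀ ≤ #K :=
  (h.inf.trans ((cantor al).le.trans (cantor _).le)).trans h.pp

theorem Ctx.al_le {al : Cardinal.{u}} (h : Ctx K al m) : al ≤ #K :=
  ((cantor al).le.trans (cantor _).le).trans h.pp

theorem Ctx.two_le {al : Cardinal.{u}} (h : Ctx K al m) : (2 : Cardinal.{u}) ^ al ≤ #K :=
  (cantor _).le.trans h.pp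

theorem Ctx.powL {al : Cardinal.{u}} (h : Ctx K al m) {L : Type u} (hL : #L ≤ al) :
    #K ^ #L ≤ #K :=
  (power_le_power_left (aleph0_pos.trans_le h.aleph0_le).ne' hL).trans h.pow

theorem Ctx.mk_set {al : Cardinal.{u}} (h : Ctx K al m) {L : Type u} (hL : #L ≤ al) :
    #(Set L) ≤ #K := by
  rw [Cardinal.mk_set]
  exact (power_le_power_left two_ne_zero hL).trans h.two_le

theorem Ctx.mk_set_set {al : Cardinal.{u}} (h : Ctx K al m) {L : Type u} (hL : #L ≤ al) :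
    #(Set (Set L)) ≤ #K := by
  rw [Cardinal.mk_set, Cardinal.mk_set]
  exact (power_le_power_left two_ne_zero (power_le_power_left two_ne_zero hL)).trans h.pp

end tools

section enumerations

/-- a nonempty set of cardinality at most `#K` is the range of a function on `K` -/
theorem enum_set {K T : Type u} (D : Set T) (hD : #D ≤ #K) (hne : D.Nonempty) :
    ∃ e : K → T, (∀ k, e k ∈ D) ∧ ∀ d ∈ D, ∃ k, e k = d := by
  classical
  rw [Cardinal.le_def] at hD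
  obtain ⟨g⟩ := hD
  have : Nonempty D := hne.to_subtype
  refine ⟨fun k => (Function.invFun g k : D), fun k => (Function.invFun g k).2, fun d hd => ?_⟩
  refine ⟨g ⟨d, hd⟩, ?_⟩
  have h1 := Function.leftInverse_invFun g.injective ⟨d, hd⟩
  simp only [h1]

/-- the ordinals below `t` are listed by `K` -/
theorem enum_ord {K : Type u} {t : Ordinal.{u}} (h : t.card ≤ #K) (h0 : 0 < t) :
    ∃ e : K → Ordinal.{u}, (∀ k, e k < t) ∧ ∀ a < t, ∃ k, e k = a := by
  have hne : (univ : Set t.ToType).Nonempty := ⟨ToType.mk ⟨0, h0⟩, trivial⟩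
  obtain ⟨e, -, he⟩ := enum_set (K := K) (univ : Set t.ToType) (by rwa [mk_univ, mk_toType]) hne
  refine ⟨fun k => ((e k).toOrd : Ordinal.{u}), fun k => (e k).toOrd.2, fun a ha => ?_⟩
  obtain ⟨k, hk⟩ := he (ToType.mk ⟨a, ha⟩) trivial
  refine ⟨k, ?_⟩
  simp only [hk]
  simp [ToType.toOrd]

/-- a cofinal function on `K` -/
theorem enum_cof {K : Type u} {t : Ordinal.{u}} (h : t.cof ≤ #K) (h0 : 0 < t) :
    ∃ g : K → Ordinal.{u}, (∀ k, g k < t) ∧ ∀ a < t, ∃ k, a ≤ g k := by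
  obtain ⟨s, hs, hs2⟩ := Order.exists_cof_eq (α := t.ToType)
  have hne : s.Nonempty := by
    obtain ⟨b, hb, -⟩ := hs (ToType.mk ⟨0, h0⟩)
    exact ⟨b, hb⟩
  obtain ⟨e, he1, he2⟩ := enum_set (K := K) s (by rwa [hs2, cof_toType]) hne
  refine ⟨fun k => ((e k).toOrd : Ordinal.{u}), fun k => (e k).toOrd.2, fun a ha => ?_⟩
  obtain ⟨b, hb, hb2⟩ := hs (ToType.mk ⟨a, ha⟩)
  obtain ⟨k, hk⟩ := he2 b hb
  refine ⟨k, ?_⟩
  have h3 : ((ToType.mk ⟨a, ha⟩).toOrd : Ordinal.{u}) ≤ (e k).toOrd := by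
    rw [hk]
    exact ToType.mk.symm.monotone hb2
  simpa [ToType.toOrd] using h3

/-- fewer than `cof t` ordinals below `t` are bounded below `t` -/
theorem exists_bd {Q : Type u} {t : Ordinal.{u}} (h : #Q < t.cof) (f : Q → Ordinal.{u})
    (hf : ∀ q, f q < t) : ∃ s < t, ∀ q, f q < s :=
  ⟨⨆ i, f i + 1, iSup_add_one_lt_of_lt_cof h hf, fun q => Ordinal.lt_iSup_add_one _ q⟩

theorem exists_bd_nat {t : Ordinal.{u}} (h : ℵ₀ < t.cof) (f : ℕ → Ordinal.{u})
    (hf : ∀ n, f n < t) : ∃ s < t, ∀ n, f n < s := by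
  obtain ⟨s, hs, h1⟩ := exists_bd (Q := ULift.{u} ℕ) (t := t) (by
    rwa [mk_uLift, mk_nat, lift_aleph0]) (fun n => f n.down) (fun n => hf n.down)
  exact ⟨s, hs, fun n => h1 ⟨n⟩⟩

end enumerations

end Pool.Agent.Helper27.RV
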