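import Pool.Agent.Helper27.RV.StL

set_option autoImplicit false

open Cardinal Ordinal Set Filter

universe u

namespace Pool.Agent.Helper27.RV

open Pool.Agent.Helper65.GS Pool.Agent.Helper36.VC

theorem pLMK : StLMK.{u} := by
  intro κ T hT a ha
  obtain ⟨b, hb, hwi, hcl, -⟩ := hT (fun _ => a.ord) (fun _ _ => ord_lt_ord.2 ha)
  have hab : a.ord < b := hcl 0 (omega0_pos.trans hwi.1)
  obtain ⟨c, hac, hcb, hc⟩ := hwi.2.2 a.ord hab
  unfold IsCard at hc
  rw [← hc] at hac
  have h1 : a < c.card := ord_lt_ord.1 hac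
  calc Order.succ a ≤ c.card := Order.succ_le_of_lt h1
    _ ≤ b.card := card_le_card hcb.le
    _ < κ := lt_ord.1 hb

end Pool.Agent.Helper27.RV
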