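import Pool.Agent.Helper27.RV.StL

/-!
Project RV, module SPC: closing off.
-/

set_option autoImplicit false

open Cardinal Ordinal Set

universe u

namespace Pool.Agent.Helper27.RV.SPC76

open Pool.Agent.Helper27.RV

private theorem SP_congr {L D D' : Type u} (e : D ≃ D') (h : SP L D) : SP L D' := by
  obtain ⟨V, hV⟩ := h
  refine ⟨fun d l n => e (V (e.symm d) l n), fun v => ?_⟩
  obtain ⟨d, hd⟩ := hV (fun l n => e.symm (v l n))
  refine ⟨e d, fun l n => ?_⟩
  obtain ⟨n', hn'⟩ := hd l n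
  refine ⟨n', ?_⟩
  simp only [Equiv.symm_apply_apply]
  rw [← hn', Equiv.apply_symm_apply]

/-- the sequence of the proof -/
private noncomputable def xs (I : Type u) [LinearOrder I] [WellFoundedLT I] (d : Ordinal.{u})
    (G : Ordinal.{u} → Ordinal.{u}) : I → Ordinal.{u} :=
  (wellFounded_lt (α := I)).fix fun i rec => max d (⨆ j : {j : I // j < i}, G (rec j.1 j.2))

private theorem xs_eq (I : Type u) [LinearOrder I] [WellFoundedLT I] (d : Ordinal.{u})
    (G : Ordinal.{u} → Ordinal.{u}) (i : I) :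
    xs I d G i = max d (⨆ j : {j : I // j < i}, G (xs I d G j.1)) :=
  WellFounded.fix_eq _ _ _

private theorem xs_le (I : Type u) [LinearOrder I] [WellFoundedLT I] (d : Ordinal.{u})
    (G : Ordinal.{u} → Ordinal.{u}) (i : I) : d ≤ xs I d G i := by
  rw [xs_eq]
  exact le_max_left _ _

private theorem xs_step (I : Type u) [LinearOrder I] [WellFoundedLT I] (d : Ordinal.{u})
    (G : Ordinal.{u} → Ordinal.{u}) {j i : I} (h : j < i) : G (xs I d G j) ≤ xs I d G i := by
  rw [xs_eq I d G i]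
  refine le_trans ?_ (le_max_right _ _)
  exact Ordinal.le_iSup (fun j : {j : I // j < i} => G (xs I d G j.1)) ⟨j, h⟩

private theorem xs_lt (I : Type u) [LinearOrder I] [WellFoundedLT I] (d t : Ordinal.{u})
    (G : Ordinal.{u} → Ordinal.{u}) (hI : #I < t.cof) (hd : d < t) (hG : ∀ z < t, G z < t) (i : I) :
    xs I d G i < t := by
  induction i using WellFoundedLT.induction with
  | ind i ih =>
    rw [xs_eq]
    refine max_lt hd ?_
    obtain ⟨s, hs, hs2⟩ := exists_bd (Q := {j : I // j < i}) (t := t)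
      (lt_of_le_of_lt (mk_subtype_le _) hI) (fun j => G (xs I d G j.1))
      (fun j => hG _ (ih j.1 j.2))
    exact lt_of_le_of_lt (Ordinal.iSup_le fun j => (hs2 j).le) hs

theorem pSPC : StSPC.{u} := by
  intro κ hκ hκ0 hsucc hdom a ha d hd
  set lam : Cardinal.{u} := Order.succ (max a ℵ₀) with hlam
  have hlamreg : lam.IsRegular := isRegular_succ (le_max_right _ _)
  have hlamκ : lam < κ := hsucc _ (max_lt ha hκ0)
  have hlam0 : ℵ₀ ≤ lam := hlamreg.aleph0_le
  have hcof : κ.ord.cof = κ := hκ.cof_ord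
  have hout : #a.out = a := mk_out a
  -- the dominating families
  have hF : ∀ γ : Ordinal.{u}, ∃ Q : Type u, γ < κ.ord → #Q < κ ∧
      ∃ V : Q → a.out → ℕ → γ.ToType, ∀ v : a.out → ℕ → γ.ToType, ∃ q, ∀ l n, ∃ n',
        v l n = V q l n' := by
    intro γ
    by_cases hγ : γ < κ.ord
    · obtain ⟨Q, hQ, hV⟩ := hdom a.out γ.ToType (by rwa [hout]) (by
        rw [mk_toType]
        exact lt_ord.1 hγ)
      exact ⟨Q, fun _ => ⟨hQ, hV⟩⟩
    · exact ⟨PEmpty, fun h => absurd h hγ⟩
  choose Q hQ using hF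
  set G : Ordinal.{u} → Ordinal.{u} := fun γ => max (Order.succ γ) (Order.succ (#(Q γ)).ord) with hG
  have hlim := isSuccLimit_ord hκ0.le
  have hGlt : ∀ z < κ.ord, G z < κ.ord := by
    intro z hz
    exact max_lt (hlim.succ_lt hz) (hlim.succ_lt (ord_lt_ord.2 (hQ z hz).1))
  have hI : Cardinal.mk lam.ord.ToType = lam := by
    rw [mk_toType, card_ord]
  set x : lam.ord.ToType → Ordinal.{u} := xs lam.ord.ToType d.ord G with hx
  have hxlt : ∀ i, x i < κ.ord := fun i =>
    xs_lt _ _ _ _ (by rw [hI, hcof]; exact hlamκ) (ord_lt_ord.2 hd) hGlt i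
  have hxstep : ∀ {j i}, j < i → G (x j) ≤ x i := fun h => xs_step _ _ _ h
  have hxmono : ∀ {j i}, j < i → x j < x i := fun {j i} h =>
    lt_of_lt_of_le (lt_of_lt_of_le (Order.lt_succ _) (le_max_left _ _)) (hxstep h)
  -- the supremum
  set γ : Ordinal.{u} := ⨆ i, x i with hγ
  have hle : ∀ i, x i ≤ γ := fun i => Ordinal.le_iSup x i
  have hγlt : γ < κ.ord := by
    obtain ⟨s, hs, hs2⟩ := exists_bd (Q := lam.ord.ToType) (t := κ.ord)
      (by rw [hI, hcof]; exact hlamκ) x hxlt
    exact lt_of_le_of_lt (Ordinal.iSup_le fun j => (hs2 j).le) hs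
  have : NoMaxOrder lam.ord.ToType := noMaxOrder hlam0
  have hpos : 0 < lam.ord := by
    rw [lt_ord, Ordinal.card_zero]
    exact aleph0_pos.trans_le hlam0
  obtain ⟨i0, hi0⟩ : ∃ i : lam.ord.ToType, 0 < x i := by
    obtain ⟨i, hi⟩ := exists_gt (ToType.mk ⟨(0 : Ordinal.{u}), hpos⟩ : lam.ord.ToType)
    exact ⟨i, lt_of_le_of_lt bot_le (hxmono hi)⟩
  have hcard : lam ≤ γ.card := by
    have h1 : Function.Injective (fun i : lam.ord.ToType =>
        (ToType.mk ⟨x i, lt_of_lt_of_le (hxmono (exists_gt i).choose_spec)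
          (hle (exists_gt i).choose)⟩ : γ.ToType)) := by
      intro i j hij
      have h2 : x i = x j := by
        have := congrArg (fun z : γ.ToType => (ToType.mk.symm z : Ordinal.{u})) hij
        simpa using this
      rcases lt_trichotomy i j with h3 | h3 | h3
      · exact absurd h2 (hxmono h3).ne
      · exact h3
      · exact absurd h2 (hxmono h3).ne'
    have h4 := mk_le_of_injective h1
    rwa [hI, mk_toType] at h4
  have hQle : ∀ i, #(Q (x i)) ≤ γ.card := by
    intro i
    obtain ⟨j, hj⟩ := exists_gt i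
    rw [← ord_le]
    refine le_trans ?_ (hle j)
    refine le_trans ?_ (hxstep hj)
    exact le_trans (Order.le_succ _) (le_max_right _ _)
  refine ⟨γ.card, lt_ord.1 hγlt, ?_, ?_⟩
  · rw [← ord_le]
    exact le_trans (xs_le _ _ _ i0) (hle i0)
  · -- the families together
    choose hQlt V hV using fun i => (hQ (x i) (hxlt i))
    let emb : ∀ i, (x i).ToType → γ.ToType := fun i z =>
      ToType.mk ⟨(z.toOrd : Ordinal.{u}), Set.mem_Iio.2 (lt_of_lt_of_le (Set.mem_Iio.1 z.toOrd.2) (hle i))⟩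
    let W : (Σ i : lam.ord.ToType, Q (x i)) → a.out → ℕ → γ.ToType := fun p e n =>
      emb p.1 (V p.1 p.2 e n)
    have hW : ∀ v : a.out → ℕ → γ.ToType, ∃ p, ∀ e n, ∃ n', v e n = W p e n' := by
      intro v
      have h1 : ∀ e n, ∃ i : lam.ord.ToType, ((v e n).toOrd : Ordinal.{u}) < x i := by
        intro e n
        exact Ordinal.lt_iSup_iff.1 (v e n).toOrd.2
      choose j hj using h1
      obtain ⟨s, hs, hs2⟩ := exists_bd (Q := a.out × ULift.{u} ℕ) (t := lam.ord) (by
          rw [hlamreg.cof_ord, mk_prod, Cardinal.lift_id, Cardinal.lift_id, hout, mk_uLift, mk_nat,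
            lift_aleph0]
          refine lt_of_le_of_lt ?_ (Order.lt_succ _)
          exact (mul_le_max a ℵ₀).trans (by simp))
        (fun q => ((j q.1 q.2.down).toOrd : Ordinal.{u})) (fun q => (j q.1 q.2.down).toOrd.2)
      set i : lam.ord.ToType := ToType.mk ⟨s, hs⟩ with hi
      have hji : ∀ e n, j e n < i := by
        intro e n
        have h3 : ((j e n).toOrd : Ordinal.{u}) < s := hs2 (e, ⟨n⟩)
        have h4 : (j e n).toOrd < (⟨s, hs⟩ : Set.Iio lam.ord) := h3
        have h5 := ToType.mk.strictMono h4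
        have h6 : ToType.mk (j e n).toOrd = j e n := by
          simp [ToType.toOrd]
        rwa [h6] at h5
      have hlt : ∀ e n, ((v e n).toOrd : Ordinal.{u}) < x i := fun e n =>
        (hj e n).trans (hxmono (hji e n))
      obtain ⟨q, hq⟩ := hV i (fun e n => ToType.mk ⟨((v e n).toOrd : Ordinal.{u}), hlt e n⟩)
      refine ⟨⟨i, q⟩, fun e n => ?_⟩
      obtain ⟨n', hn'⟩ := hq e n
      refine ⟨n', ?_⟩
      change v e n = emb i (V i q e n')
      rw [← hn']
      simp [emb, ToType.toOrd]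
    have hPne : Nonempty (Σ i : lam.ord.ToType, Q (x i)) := by
      obtain ⟨p, -⟩ := hW (fun _ _ => ToType.mk ⟨0, lt_of_lt_of_le hi0 (hle i0)⟩)
      exact ⟨p⟩
    have hPle : #(Σ i : lam.ord.ToType, Q (x i)) ≤ #γ.ToType := by
      rw [mk_sigma, mk_toType]
      refine le_trans (sum_le_sum _ (fun _ => γ.card) hQle) ?_
      rw [sum_const', hI]
      exact (mul_le_max_of_aleph0_le_left hlam0).trans (max_le hcard le_rfl)
    obtain ⟨s, -, hs⟩ := enum_set (K := γ.ToType) (univ : Set (Σ i : lam.ord.ToType, Q (x i)))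
      (by rwa [mk_univ]) ⟨hPne.some, trivial⟩
    have hSP : SP a.out γ.ToType := by
      refine ⟨fun z => W (s z), fun v => ?_⟩
      obtain ⟨p, hp⟩ := hW v
      obtain ⟨z, hz⟩ := hs p trivial
      exact ⟨z, fun e n => by
        obtain ⟨n', hn'⟩ := hp e n
        refine ⟨n', ?_⟩
        change v e n = W (s z) e n'
        rw [hz]
        exact hn'⟩
    have heq : #γ.ToType = #γ.card.out := by
      rw [mk_toType, mk_out]
    obtain ⟨e⟩ := Cardinal.eq.1 heq
    exact SP_congr e hSP

end Pool.Agent.Helper27.RV.SPC76
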