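import Pool.Agent.Helper27.RV.Defs

/-!
# Project RV: statements of the modules

Every `St..` is a proposition with a complete proof in its docstring. Tools in `Defs.lean`:
`IsIdl.empty`, `IsIdl.seq` (countable unions), `IsIdl.union`, `Cvd.mono`, `Large.mono`, `Cov.mono`,
`Ctx.aleph0_le`, `Ctx.al_le`, `Ctx.two_le`, `Ctx.powL`, `Ctx.mk_set`, `Ctx.mk_set_set`,
`enum_set`, `enum_ord`, `enum_cof`, `exists_bd`, `exists_bd_nat`.
For sums of cardinals: `Cardinal.mk_sigma`, `Cardinal.sum_lt_of_isRegular`,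
`Cardinal.mk_iUnion_le`, `Cardinal.mul_eq_self`, `Cardinal.mul_le_of_le`, `Cardinal.mk_toType`.
-/

set_option autoImplicit false

open Cardinal Ordinal Set

universe u

namespace Pool.Agent.Helper27.RV

open Pool.Agent.Helper65.GS

/-- MODULE JOIN (30 lines). PROOF. For every `q` the failure of `Large` gives a type `ι q` with
`#(ι q) < m` and boxes `E q : ι q → L → K → Ordinal` such that every `S` with `S l n < c q l` on `X q` has
a `B ⊆ X q` with `Cvd (E q) S B` and `B ∉ J q`. Take `ι = Σ q, ι q` (`#ι < m` by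
`Cardinal.mk_sigma` and `Cardinal.sum_lt_of_isRegular`) and `E ⟨q, i⟩ = E q i`. If `Cvd (E q) S B` by
`I : Set (ι q)` then `Cvd E S B` by the image of `I` under `Sigma.mk q` (`Cardinal.mk_image_le`). -/
def StJOIN : Prop := ∀ (K : Type u) (m : Cardinal.{u}) (L Q : Type u) (J : Q → Set (Set L))
    (c : Q → L → Ordinal.{u}) (X : Q → Set L), m.IsRegular → #Q < m →
    (∀ q, ¬ Large K m (J q) (c q) (X q)) →
    ∃ ι : Type u, #ι < m ∧ ∃ E : ι → L → K → Ordinal.{u}, ∀ q (S : L → ℕ → Ordinal.{u}),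
      (∀ l ∈ X q, ∀ n, S l n < c q l) → ∃ B ⊆ X q, Cvd E S B ∧ B ∉ J q

/-- MODULE RST (50 lines). Restriction to a subset as a type. PROOF. First part: images of subsets and
of unions (`image_iUnion`). Second part: given `E : ι → X → K → Ordinal` let
`E' i l k = if h : l ∈ X then E i ⟨l, h⟩ k else 0` and take `S` for `E'`; use `fun y => S y`. If
`Cvd E (fun y => S y) Y` then `Cvd E' S (Subtype.val '' Y)` with the same `I`, and
`Subtype.val '' Y ⊆ X`, so it is in `J`. -/
def StRST : Prop := ∀ (K : Type u) (m : Cardinal.{u}) (L : Type u) (J : Set (Set L))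
    (c : L → Ordinal.{u}) (X : Set L), IsIdl J → Large K m J c X →
    IsIdl {Y : Set X | Subtype.val '' Y ∈ J} ∧
      Large K m {Y : Set X | Subtype.val '' Y ∈ J} (fun y => c y) univ

/-- MODULE SELF (theorem: StRST → StSELF; 30 lines). PROOF. In `Small` take `L' = B` (a subtype),
`p = Subtype.val`, `J' = {Y | Subtype.val '' Y ∈ J}`, and `c'` restricted; `StRST` with `X = B`. The fibres
are subsingletons. For `X ⊆ B`, `Subtype.val '' (Subtype.val ⁻¹' X) = X`. -/
def StSELF : Prop := ∀ (K : Type u) (m : Cardinal.{u}) (L : Type u) (J : Set (Set L))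
    (c c' : L → Ordinal.{u}) (B : Set L), IsIdl J → Large K m J c' B → (∀ l ∈ B, c' l < c l) →
    Small K m J c B

/-- MODULE SUBD (theorem: StRST → StSUBD; 40 lines). PROOF. Let `L', p, J', c'` witness `Small` for `B`.
Let `X' = p ⁻¹' B' : Set L'`. Take the subtype `X'`, the map `fun y => p y`, the ideal
`{Y | Subtype.val '' Y ∈ J'}` and `c'` restricted: `StRST` for `J'`, `c'`, `X'` (`Large.mono`). The fibres are
countable (`Countable.preimage_of_injOn` or injectivity of `Subtype.val`). If `X ⊆ B'` then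
`Subtype.val '' ((fun y => p y) ⁻¹' X) = p ⁻¹' X`. -/
def StSUBD : Prop := ∀ (K : Type u) (m : Cardinal.{u}) (L : Type u) (J : Set (Set L))
    (c : L → Ordinal.{u}) (B B' : Set L), Small K m J c B → B' ⊆ B → Small K m J c B'

/-- MODULE EMP (20 lines). PROOF. Take `L' = PEmpty`, `J' = univ` (all sets); for `X ⊆ B`, `X ∈ J` by
`IsIdl.sub`; everything else is trivial. -/
def StEMP : Prop := ∀ (K : Type u) (m : Cardinal.{u}) (L : Type u) (J : Set (Set L))
    (c : L → Ordinal.{u}) (B : Set L), IsIdl J → B ∈ J → Small K m J c B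

/-- MODULE UND (theorem: StSUBD → StUND; 90 lines). Unions of at most `ℵ₁` small sets are small.
PROOF. For `l ∈ ⋃ q, B q` choose an index `i l` with `l ∈ B (i l)`; let
`B' q = {l ∈ B q | i l = q}` (pairwise disjoint, same union). `B' q` is small (StSUBD), with witnesses
`L' q, p q, J' q, c' q`. Take `L' = Σ q, L' q`, `p ⟨q, y⟩ = p q y`,
`J' = {Y | ∀ q, Sigma.mk q ⁻¹' Y ∈ J' q}`, `c' ⟨q, y⟩ = c' q y`. `J'` is an ideal (`preimage_iUnion`). If
`p ⟨q, y⟩ = l` then `l ∈ B' q`, so `q = i l`: the fibre of `l` is contained in the image of the fibre of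
`p (i l)` under `Sigma.mk (i l)`, so it is countable. If `X ⊆ ⋃ B q` and `p ⁻¹' X ∈ J'` then for every `q`
`(p q) ⁻¹' (X ∩ B' q) ∈ J' q`, so `X ∩ B' q ∈ J`, and `X = ⋃ q, X ∩ B' q ∈ J` by `IsIdl.un`. `Large`: given
`E` on `L'` take `S q` for the boxes `fun i y => E i ⟨q, y⟩` on `L' q` and `S ⟨q, y⟩ = S q y`; if
`Cvd E S Y` by `I` then the same `I` covers `S q` on `Sigma.mk q ⁻¹' Y`. -/
def StUND : Prop := ∀ (K : Type u) (m : Cardinal.{u}) (L Q : Type u) (J : Set (Set L))
    (c : L → Ordinal.{u}) (B : Q → Set L), IsIdl J → #Q ≤ ℵ_ 1 → (∀ q, Small K m J c (B q)) →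
    Small K m J c (⋃ q, B q)

/-- MODULE F1 (30 lines). PROOF. If `(c l).card ≤ #K` and `0 < c l` let `e l : K → Ordinal` list the
ordinals below `c l` (`enum_ord`). Apply `Large` to the single box (`ι = PUnit`) `E _ l k = e l k`
(and `0` for the other `l`): `S l n < c l`, so `0 < c l` for all `l` and `S` is covered on
`B = {l | (c l).card ≤ #K}` (take `I = univ`). So `B ∈ J`. -/
def StF1 : Prop := ∀ (K : Type u) (m : Cardinal.{u}) (L : Type u) (J : Set (Set L))
    (c : L → Ordinal.{u}), 1 < m → Large K m J c univ → {l | (c l).card ≤ #K} ∈ J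

/-- MODULE DC (theorem: StSELF → StDC; 60 lines). The set where `c l` is not a cardinal is small.
PROOF. `B = {l | ¬ IsCard (c l)}`, `c' l = (c l).card.ord`, so `c' l < c l` on `B` (`Cardinal.ord_card_le`
or `card_ord`, `ord_le`). For every `l` there are `g h : Ordinal → Ordinal` with
`∀ a < c l, h a < c' l ∧ g (h a) = a` (a bijection of `(c l).ToType` with `(c' l).ToType`, equal
cardinalities). To see `Large K m J c' B` let `E` be given, let `E' i l k = g l (E i l k)` and `S` for `E'`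
(`Large K m J c univ`); take `S' l n = h l (S l n)`. If `S' l n = E i l k` then
`S l n = g l (S' l n) = E' i l k`. So `Cvd E S' B0` implies `Cvd E' S B0`. Apply StSELF. -/
def StDC : Prop := ∀ (K : Type u) (m : Cardinal.{u}) (L : Type u) (J : Set (Set L))
    (c : L → Ordinal.{u}), IsIdl J → Large K m J c univ → Small K m J c {l | ¬ IsCard (c l)}

/-- MODULE DM (theorem: StJOIN → StSELF → StDM; 70 lines). The set of the `l` such that `c l` has
uncountable cofinality at most `#K` is small. PROOF. Let `B` be this set. For `l ∈ B` let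
`g l : K → Ordinal` be cofinal in `c l` (`enum_cof`): `g l k < c l`, and every `a < c l` has a `k` with
`a ≤ g l k`. Suppose `B` is not small. By StSELF for every `q : L → K` the function `c_q l = g l (q l)` is not
large on `B`. There are `#K ^ #L ≤ #K < m` such `q` (`Ctx.powL`, `Cardinal.mk_arrow` or
`Cardinal.power_def`). StJOIN (with `Q = L → K`, `J q = J`, `X q = B`) gives boxes `E`. Let `S` be given by
`Large K m J c univ` for `E`. For `l ∈ B` there is `a < c l` with `S l n < a` for all `n`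
(`exists_bd_nat`), so there is `q l` with `S l n < g l (q l)` for all `n`. So for this `q` there is
`B0 ⊆ B` with `Cvd E S B0` and `B0 ∉ J`, a contradiction to the choice of `S`. -/
def StDM : Prop := ∀ (K : Type u) (al m : Cardinal.{u}) (L : Type u) (J : Set (Set L))
    (c : L → Ordinal.{u}), Ctx K al m → #L ≤ al → IsIdl J → Large K m J c univ →
    Small K m J c {l | ℵ₀ < (c l).cof ∧ (c l).cof ≤ #K}

/-- MODULE DW (theorem: StJOIN → StDW; 130 lines). The set of the `l` such that `c l` has cofinality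
`ω` is small. PROOF. Let `B` be this set; for `l ∈ B` choose `g l : ℕ → Ordinal` with
`0 < g l k < c l` and such that every `a < c l` has a `k` with `a < g l k` (`enum_cof` with
`K = ULift ℕ`; `c l` is a limit ordinal by `Ordinal.aleph0_le_cof`; add `1` to the values). Let `L' = B × ℕ`
(`B` as a subtype), `p (l, k) = l`, `c' (l, k) = g l k`. Let `Q` be the type of all `J' : Set (Set L')` with
`IsIdl J'` and `∀ X ⊆ B, p ⁻¹' X ∈ J' → X ∈ J`. `#Q ≤ #(Set (Set L')) ≤ #K < m` (`Ctx.mk_set_set` for `L'`,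
`#L' ≤ al`). The fibres of `p` are countable. Suppose that `B` is not small; then
`¬ Large K m J' c' univ` for all `J' ∈ Q` and StJOIN (on `L'`, with `X q = univ`) gives boxes
`E : ι → L' → K → Ordinal`. Let `w : K → K × ℕ` be surjective (`ℵ₀ ≤ #K`) and let
`E' i l k = E i (l, (w k).2) (w k).1` for `l ∈ B` and `0` otherwise, boxes on `L`. Let `S` be given by
`Large K m J c univ` for `E'`. Let `S' (l, k) n = S l n` if `S l n < g l k` and `0` otherwise. Let `J'` be the
set of all `Y : Set L'` such that `Cvd E S' (Y \ p ⁻¹' X)` for some `X ∈ J`. CLAIM: `J' ∈ Q`. It is closed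
under subsets; under unions of at most `ℵ₁` members (unite the `X` and the `I`; `ℵ₁ * ℵ₁ = ℵ₁`). Let
`X1 ⊆ B`, `p ⁻¹' X1 ∈ J'` by `X` and `I`. For `l ∈ X1 \ X` and `n` choose `k` with `S l n < g l k`; then
`S l n = S' (l, k) n = E i (l, k) k'` for some `i ∈ I`, `k'`, and this is a value of `E' i l`. So
`Cvd E' S (X1 \ X)`, `X1 \ X ∈ J`, and `X1 ∈ J`. By the choice of `E` for this `J'` and `S'` there is `B0`
with `Cvd E S' B0` and `B0 ∉ J'`: but `B0 ∈ J'` with `X = ∅`: contradiction. -/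
def StDW : Prop := ∀ (K : Type u) (al m : Cardinal.{u}) (L : Type u) (J : Set (Set L))
    (c : L → Ordinal.{u}), Ctx K al m → #L ≤ al → IsIdl J → Large K m J c univ →
    Small K m J c {l | (c l).cof = ℵ₀}

/-- MODULE DIR (theorem: StJOIN → StSELF → StDIR; 80 lines). Fewer than `m` functions below `c` are
bounded off small sets. PROOF. Let `Q` be the type of all pairs `(r, X)`, `r : R`, `X : Set L`, with
`X ⊆ {l | ℵ₀ < (c l).cof}` and `¬ Small K m J c X`. By StSELF (`g r l < c l`) `g r` is not large on `X`. `#Q < m`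
(`#R < m`, `#(Set L) ≤ #K < m` by `Ctx.mk_set`, and `m` is infinite: `Cardinal.mul_lt_of_lt`). StJOIN
gives boxes `E`. Let `S` be given by `Large K m J c univ` for `E`. If `ℵ₀ < (c l).cof` let `s l < c l` be
larger than all `S l n` (`exists_bd_nat`). Let `r : R` and `X = {l | ℵ₀ < (c l).cof ∧ s l < g r l}`. If `X` is
not small then `(r, X) ∈ Q` and `S l n < s l < g r l` on `X`, so there is `B ⊆ X` with `Cvd E S B` and
`B ∉ J`, contradiction to the choice of `S`. -/
def StDIR : Prop := ∀ (K : Type u) (al m : Cardinal.{u}) (L R : Type u) (J : Set (Set L))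
    (c : L → Ordinal.{u}) (g : R → L → Ordinal.{u}), Ctx K al m → #L ≤ al → IsIdl J →
    Large K m J c univ → #R < m → (∀ r l, g r l < c l) →
    ∃ s : L → Ordinal.{u}, (∀ l, ℵ₀ < (c l).cof → s l < c l) ∧
      ∀ r, Small K m J c {l | ℵ₀ < (c l).cof ∧ s l < g r l}

/-- MODULE COD (70 lines). PROOF. Let `g : K → ℕ` be surjective. For every ordinal `a < m.ord` and every
`S0 : Ordinal → L → ℕ → Ordinal` the property `Large` for `ι = a.ToType` (`#ι = a.card < m`,
`Cardinal.lt_ord`) and `E i l k = S0 i.toOrd l (g k)` gives a function `T a S0 : L → ℕ → Ordinal` below `c`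
which is `Cvd E` only on members of `J`. By well-founded recursion there is `S` with
`S a = T a (fun b => if b < a then S b else 0)` (use `WellFounded.fix`, `WellFounded.fix_eq`). Let
`q : Q → Ordinal`, `q i < a`, `#Q ≤ ℵ₁`, and `B` as in the statement. Then `Cvd E (S a) B` with `I` the set
of all `ToType.mk ⟨q i, _⟩` (range of a function on `Q`, `Cardinal.mk_range_le`). So `B ∈ J`. -/
def StCOD : Prop := ∀ (K : Type u) (m : Cardinal.{u}) (L : Type u) (J : Set (Set L))
    (c : L → Ordinal.{u}), ℵ₀ ≤ #K → Large K m J c univ →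
    ∃ S : Ordinal.{u} → L → ℕ → Ordinal.{u}, ∀ a < m.ord, (∀ l n, S a l n < c l) ∧
      ∀ (Q : Type u) (q : Q → Ordinal.{u}) (B : Set L), #Q ≤ ℵ_ 1 → (∀ i, q i < a) →
        (∀ l ∈ B, ∀ n, ∃ i n', S a l n = S (q i) l n') → B ∈ J

/-- MODULE DSM (60 lines). Few functions meet a box on a large set. PROOF. Let `D` be the set in
question. For `a ∈ D` let `Y a = {x | ∃ k, S a x = e x k}` and choose `h a : Λ → K` with
`S a x = e x (h a x)` for `x ∈ Y a`. The map `a ↦ (Y a, h a)` is injective on `D`: if `a ≠ b` have the same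
image, say `r b < r a` (`r` is injective, otherwise exchange `a`, `b`); then `S a x = S b x` on `Y a`, so
`Y a ∈ N a`, contradiction. So `#D ≤ #(Set Λ × (Λ → K)) = 2 ^ #Λ * #K ^ #Λ ≤ #K * #K = #K`. -/
def StDSM : Prop := ∀ (Λ T K : Type u) (S : T → Λ → Ordinal.{u}) (r : T → Ordinal.{u})
    (N : T → Set (Set Λ)) (e : Λ → K → Ordinal.{u}), Function.Injective r → ℵ₀ ≤ #K →
    #K ^ #Λ ≤ #K → (2 : Cardinal.{u}) ^ #Λ ≤ #K → (∀ a Y Z, Y ⊆ Z → Z ∈ N a → Y ∈ N a) →
    (∀ a b, r b < r a → {x | S a x = S b x} ∈ N a) → #{a | {x | ∃ k, S a x = e x k} ∉ N a} ≤ #K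

/-- MODULE KA (theorem: StCOD → StDIR → StKA; 110 lines). PROOF. Let `S` be given by StCOD. Let
`R = (succ #T).ord.ToType` (`#R = succ #T < m`). For `a : R` (identified with the ordinal
`a.toOrd < (succ #T).ord < m.ord`) let `g a l < c l` be larger than all `S a l n` if `ℵ₀ < (c l).cof`
(`exists_bd_nat`) and `g a l = 0` otherwise (`0 < c l`, as `S a l 0 < c l`). StDIR gives `s0`. For `a : R` let
`N a = {l | ℵ₀ < (c l).cof ∧ s0 l < g a l}`, small. `#(Set L) ≤ #K ≤ #T < succ #T`, which is regular, so by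
`Cardinal.infinite_pigeonhole_card` some `N0 : Set L` has `succ #T ≤ #{a | N a = N0}` (note that `N0` is
small). So there is an injection `ρ : T → R` with `N (ρ x) = N0` for all `x`. Put `S' x = S (ρ x)`,
`r x = (ρ x).toOrd`, `N = N0`, `s = s0`. If `ℵ₀ < (c l).cof` and `l ∉ N0` then
`S' x l n < g (ρ x) l ≤ s0 l`. `Unc` follows from the property of `S`. -/
def StKA : Prop := ∀ (K : Type u) (al m : Cardinal.{u}) (L T : Type u) (J : Set (Set L))
    (c : L → Ordinal.{u}), Ctx K al m → #L ≤ al → IsIdl J → Large K m J c univ →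
    #K ≤ #T → Order.succ #T < m →
    ∃ (S : T → L → ℕ → Ordinal.{u}) (r : T → Ordinal.{u}) (s : L → Ordinal.{u}) (N : Set L),
      Function.Injective r ∧ Unc J S r ∧ Small K m J c N ∧ (∀ l, ℵ₀ < (c l).cof → s l < c l) ∧
      ∀ l, ℵ₀ < (c l).cof → l ∉ N → ∀ a n, S a l n < s l

/-- MODULE NUL (70 lines). PROOF. (1) clear. (2) take `X = ∅`, `I = {b}`. (3) choose `X i ∈ J` and
`I i : Set T` for every `i : I0` and take the unions (`IsIdl.un`; `#(⋃ i, I i) ≤ ℵ₁ * ℵ₁ = ℵ₁`,
`Cardinal.mk_iUnion_le`). (4) Let `X, I` witness that `{p | p.1 ∈ Z}` is in `Nul J S r a`. Then for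
`l ∈ Z \ X` and all `n` there are `b ∈ I`, `n'` with `S a l n = S b l n'`. By `Unc` with `Q = I` (subtype)
`Z \ X ∈ J`; so `Z ∈ J`. -/
def StNUL : Prop := ∀ (T L : Type u) (J : Set (Set L)) (S : T → L → ℕ → Ordinal.{u})
    (r : T → Ordinal.{u}), IsIdl J →
    (∀ a (Y Z : Set (L × ℕ)), Y ⊆ Z → Z ∈ Nul J S r a → Y ∈ Nul J S r a) ∧
    (∀ a b, r b < r a → {p : L × ℕ | S a p.1 p.2 = S b p.1 p.2} ∈ Nul J S r a) ∧
    (∀ a (I0 : Type u) (Y : I0 → Set (L × ℕ)), #I0 ≤ ℵ_ 1 → (∀ i, Y i ∈ Nul J S r a) →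
      (⋃ i, Y i) ∈ Nul J S r a) ∧
    (Unc J S r → ∀ a (Z : Set L), {p : L × ℕ | p.1 ∈ Z} ∈ Nul J S r a → Z ∈ J)

/-- MODULE KV (40 lines). PROOF. Let `V d`, `d : D`, be given by `SP L D`. Suppose that the statement is
false; then for every `d` (for `V d`) there is `I d : Set ι`, `#(I d) ≤ #D`, such that no `e` has
(`uu e ∉ Dd i` for all `i ∈ I d`, and `∀ l n, ∃ n', v e l n = V d l n'`). Let `I = ⋃ d, I d`,
`#I ≤ #D * #D = #D` (`Cardinal.mk_iUnion_le`, `Cardinal.mul_eq_self`). By hypothesis there is `e` with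
`uu e ∉ Dd i` for all `i ∈ I`; and by `SP` there is `d` with `∀ l n, ∃ n', v e l n = V d l n'`:
contradiction. -/
def StKV : Prop := ∀ (L D β T ι : Type u) (Dd : ι → Set T) (uu : β → T) (v : β → L → ℕ → D),
    SP L D → ℵ₀ ≤ #D → (∀ I : Set ι, #I ≤ #D → ∃ e, ∀ i ∈ I, uu e ∉ Dd i) →
    ∃ V : L → ℕ → D, ∀ I : Set ι, #I ≤ #D →
      ∃ e, (∀ i ∈ I, uu e ∉ Dd i) ∧ ∀ l n, ∃ n', v e l n = V l n'

/-- MODULE CVO (40 lines). Indexing by ordinals. PROOF. Let `ι`, `P0` witness `Cov`. Let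
`lam = (#ι).ord < χ.ord` and let `φ : lam.ToType ≃ ι` (`Cardinal.mk_toType`, `card_ord`). Let
`P o k = P0 (φ (ToType.mk ⟨o, h⟩)) k` if `h : o < lam` and `0` otherwise. For `y` let `I` be given by `Cov`;
`I` is not empty as `β` is not empty; `enum_set` (with `K = D`) gives `D → ι` with range `I`; compose
with `φ⁻¹` and `toOrd`. -/
def StCVO : Prop := ∀ (K β D : Type u) (χ : Cardinal.{u}) (t : Ordinal.{u}), Nonempty β →
    Cov K β #D χ t → ∃ lam < χ.ord, ∃ P : Ordinal.{u} → K → Ordinal.{u},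
      ∀ y : β → Ordinal.{u}, (∀ e, y e < t) →
        ∃ g : D → Ordinal.{u}, (∀ d, g d < lam) ∧ ∀ e, ∃ d k, y e = P (g d) k

/-- MODULE NCT (40 lines). PROOF. If `Dd i` is not empty let `w i : K → t.ToType` have range `Dd i`
(`enum_set`) and `P i k = (w i k).toOrd`; otherwise `P i k = 0`. As `Cov` fails for `ι` and this `P` there
is `y : β → Ordinal` with `y e < t` such that for all `I : Set ι` with `#I ≤ δ` there is `e` with
`y e ≠ P i k` for all `i ∈ I` and all `k`. Take `uu e = ToType.mk ⟨y e, _⟩`. -/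
def StNCT : Prop := ∀ (K β : Type u) (δ m : Cardinal.{u}) (t : Ordinal.{u}), ¬ Cov K β δ m t →
    ∀ (ι : Type u) (Dd : ι → Set t.ToType), #ι < m → (∀ i, #(Dd i) ≤ #K) →
    ∃ uu : β → t.ToType, ∀ I : Set ι, #I ≤ δ → ∃ e, ∀ i ∈ I, uu e ∉ Dd i

/-- MODULE KM (theorem: StDSM → StNUL → StKV → StKM; 170 lines; strong). The main step. PROOF. Let
`E : ι → L → K → Ordinal`, `#ι < m`. Let `w : K → K × K` be surjective and
`E' i l k = P l (E i l (w k).1) (w k).2`. For `a : T` let
`Y i a = {p : L × ℕ | p.1 ∈ B ∧ ∃ k, S a p.1 p.2 = E' i p.1 k}` and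
`Dd i = {a | Y i a ∉ Nul J S r a}`. By StDSM for `Λ = L × ℕ` (`#Λ ≤ al`, `Ctx.powL`, `Ctx.two_le`), the functions
`fun a p => S a p.1 p.2`, `e p = E' i p.1` and `N a = {Y | Y ∩ {p | p.1 ∈ B} ∈ Nul J S r a}` (use StNUL (1),
(2)) `#(Dd i) ≤ #K`. By the last hypothesis there is `uu : β → T`. Let `θ : β ≃ β × ℕ`. For `l ∈ B` apply the
hypothesis on `P l` to `y e = S (uu (θ e).1) l (θ e).2 < s l`: there is `g l : D → Ordinal`, `g l d < lam l`,
such that for all `e : β`, `n` there are `d = v e l n`, `k` with `S (uu e) l n = P l (g l d) k` (`v e l n` an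
arbitrary element of `D` if `l ∉ B`). StKV gives `V : L → ℕ → D`. Let `S' l n = g l (V l n)` for `l ∈ B` and
`0` otherwise. Then `S' l n < lam l` on `B`. Let `Z ⊆ B` and `Cvd E S' Z` by `I`, `#I ≤ ℵ₁ ≤ #D`. By StKV
there is `e` with `uu e ∉ Dd i` for all `i ∈ I` and `∀ l n, ∃ n', v e l n = V l n'`. Let `a = uu e`. Then
`Y i a ∈ Nul J S r a` for `i ∈ I`, so the union over `i ∈ I` is in `Nul J S r a` (StNUL (3)). It contains
`{p | p.1 ∈ Z}`: for `l ∈ Z` and `n`, `S a l n = P l (g l (v e l n)) k2`, `v e l n = V l n'`,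
`g l (V l n') = S' l n' = E i l k1` for some `i ∈ I`, so `S a l n = E' i l k` with `w k = (k1, k2)`. By
StNUL (1), (4) `Z ∈ J`. -/
def StKM : Prop := ∀ (K : Type u) (al m : Cardinal.{u}) (L T D β : Type u) (J : Set (Set L))
    (S : T → L → ℕ → Ordinal.{u}) (r : T → Ordinal.{u}) (B : Set L) (s lam : L → Ordinal.{u})
    (P : L → Ordinal.{u} → K → Ordinal.{u}), Ctx K al m → #L ≤ al → IsIdl J →
    Function.Injective r → Unc J S r → SP L D → ℵ_ 1 ≤ #D → ℵ₀ ≤ #β →
    (∀ l ∈ B, ∀ a n, S a l n < s l) →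
    (∀ l ∈ B, ∀ y : β → Ordinal.{u}, (∀ e, y e < s l) →
      ∃ g : D → Ordinal.{u}, (∀ d, g d < lam l) ∧ ∀ e, ∃ d k, y e = P l (g d) k) →
    (∀ (ι : Type u) (Dd : ι → Set T), #ι < m → (∀ i, #(Dd i) ≤ #K) →
      ∃ uu : β → T, ∀ I : Set ι, #I ≤ #D → ∃ e, ∀ i ∈ I, uu e ∉ Dd i) →
    Large K m J lam B

/-- MODULE KEY (theorem: StKA → StKM → StCVO → StNCT → StSELF → StSUBD → StUND → StKEY; 80 lines).
PROOF. Let `T = t.ToType` (`#T = t.card`) and let StKA give `S, r, s, N`. Let `B0` be the set in question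
and `B = B0 \ N`. For `l ∈ B`, `s l < c l`, so `Cov K β #D (c l).card (s l)` and StCVO gives
`lam l < (c l).card.ord = c l` and `P l`. The last hypothesis of StKM is StNCT for `t`. So StKM gives
`Large K m J lam B`, and `B` is small by StSELF. `B0 ⊆ B ∪ N` is small by StUND (for a type with two
elements) and StSUBD. -/
def StKEY : Prop := ∀ (K : Type u) (al m : Cardinal.{u}) (L D β : Type u) (J : Set (Set L))
    (c : L → Ordinal.{u}) (t : Ordinal.{u}), Ctx K al m → #L ≤ al → IsIdl J →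
    Large K m J c univ → SP L D → ℵ_ 1 ≤ #D → ℵ₀ ≤ #β → #K ≤ t.card → Order.succ t.card < m →
    ¬ Cov K β #D m t →
    Small K m J c {l | IsCard (c l) ∧ ℵ₀ < (c l).cof ∧ ∀ s < c l, Cov K β #D (c l).card s}

/-- MODULE WF (100 lines). No infinite descent. PROOF. Suppose `c (n + 1) y < c n (p n y)` for all
`n, y`. On the type `Σ n, L n` let `R z x` hold if `∃ n y, z = ⟨n + 1, y⟩ ∧ x = ⟨n, p n y⟩`. It is well founded
(`R z x` implies `c z.1 z.2 < c x.1 x.2`; `Subrelation.wf`, `InvImage.wf`). Let `rk` be its rank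
(`IsWellFounded.rank`, `IsWellFounded.rank_eq`: `rk x = ⨆ z, succ (rk z)` over the `z` with `R z x`, which are
countably many as the fibres are countable). CLAIM 1: `rk x < ω₁` for all `x` (well-founded induction;
countable suprema below `ω₁`, e.g. `exists_bd` with `(ω₁).cof = ℵ₁`). CLAIM 2: for all `a < ω₁` and all `n`
`{y : L n | rk ⟨n, y⟩ ≤ a} ∈ J n`, by induction on `a`: the preimage of this set under `p n` is contained in
the union over `b < a` of `{z | rk ⟨n + 1, z⟩ ≤ b}`, a countable union of members of `J (n + 1)`; so it is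
in `J (n + 1)` and the set is in `J n`. So `univ = ⋃ a < ω₁, {y : L 0 | rk ⟨0, y⟩ ≤ a}`, a union of `ℵ₁`
members of `J 0` (indexed by `(ω₁ : Ordinal.{u}).ToType`), is in `J 0`: contradiction. -/
def StWF : Prop := ∀ (L : ℕ → Type u) (J : ∀ n, Set (Set (L n))) (c : ∀ n, L n → Ordinal.{u})
    (p : ∀ n, L (n + 1) → L n), (∀ n, IsIdl (J n)) → (∀ n l, (p n ⁻¹' {l}).Countable) →
    (∀ n X, p n ⁻¹' X ∈ J (n + 1) → X ∈ J n) → Set.univ ∉ J 0 →
    ∃ n y, c n (p n y) ≤ c (n + 1) y

/-- MODULE TERM (theorem: StWF → StTERM; 80 lines). PROOF. Let `G` be the type of all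
`x : Σ L : Type u, Set (Set L) × (L → Ordinal)` with the six properties (`IsIdl J`, `univ ∉ J`,
`#L ≤ al`, `Large K m J c univ`, `∀ l, c l < M`). Suppose that the statement is false. Then every `x ∈ G`
is small on `univ`, with witnesses `L', p, J', c'`; the new triple is in `G`: `univ ∉ J'` (else
`p ⁻¹' univ ∈ J'` and `univ ∈ J`); `#L' ≤ #L * ℵ₀ ≤ al` (countable fibres; `Cardinal.mk_le_of_fibers`-type
argument: `L'` is the union over `l` of the fibres, `Cardinal.mk_iUnion_le`, or inject `L'` into `L × ℕ`);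
`c' y < c (p y) < M`. Iterate from `(L0, J0, c0)` to get sequences and apply StWF: there are `n, y` with
`c n (p n y) ≤ c (n + 1) y`, contradiction. -/
def StTERM : Prop := ∀ (K : Type u) (al m : Cardinal.{u}) (M : Ordinal.{u}) (L0 : Type u)
    (J0 : Set (Set L0)) (c0 : L0 → Ordinal.{u}), ℵ₀ ≤ al → IsIdl J0 → Set.univ ∉ J0 → #L0 ≤ al →
    Large K m J0 c0 univ → (∀ l, c0 l < M) →
    ∃ (L : Type u) (J : Set (Set L)) (c : L → Ordinal.{u}), IsIdl J ∧ Set.univ ∉ J ∧ #L ≤ al ∧
      Large K m J c univ ∧ (∀ l, c l < M) ∧ ¬ Small K m J c univ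

/-- MODULE STA (theorem: StJOIN → StSTA; 80 lines). PROOF. Suppose not. Let `Q` be the type of all
`J : Set (Set β)` with `IsIdl J` and `univ ∉ J`; `#Q ≤ #(Set (Set β)) ≤ #K < m` (`Ctx.mk_set_set`). StJOIN gives
boxes `E : ι → β → K → Ordinal`. Let `w : K → β × K` be surjective (`#(β × K) ≤ #K` as `#β ≤ al ≤ #K`,
`Ctx.al_le`; if `β` is empty then `Cov` holds trivially with `I = ∅`) and `P i k = E i (w k).1 (w k).2`. As
`Cov K β δ m t` fails there is `y` with `y e < t` such that for all `I : Set ι` with `#I ≤ δ` there is `e` with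
`y e ≠ P i k` for all `i ∈ I`, `k`. Let `J` be the set of all `B : Set β` such that for some `I : Set ι` with
`#I ≤ δ`: `∀ e ∈ B, ∃ i ∈ I, ∃ k, y e = E i e k`. It is an ideal (`ℵ₁ * δ ≤ δ`) and `univ ∉ J`. For
`S e n = y e < t` StJOIN gives `B` with `Cvd E S B` and `B ∉ J`. But `Cvd E S B` implies `B ∈ J` (`ℵ₁ ≤ δ`):
contradiction. -/
def StSTA : Prop := ∀ (K β : Type u) (al δ m : Cardinal.{u}) (t : Ordinal.{u}), Ctx K al m →
    #β ≤ al → ℵ_ 1 ≤ δ → ¬ Cov K β δ m t →
    ∃ J : Set (Set β), IsIdl J ∧ Set.univ ∉ J ∧ Large K m J (fun _ => t) univ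

/-- MODULE CVA (30 lines). PROOF. If `t = 0` then `β` is empty as soon as there is `y : β → Ordinal` with
`y e < t`, and `I = ∅` works (any `ι`, e.g. `PEmpty`). If `0 < t` let `ι = PUnit` and `P _` list the
ordinals below `t` (`enum_ord`); `I = univ`. -/
def StCVA : Prop := ∀ (K β : Type u) (δ m : Cardinal.{u}) (t : Ordinal.{u}), 1 < m → 1 ≤ δ →
    t.card ≤ #K → Cov K β δ m t

/-- MODULE CVB (30 lines). PROOF. Transfer by a bijection between the ordinals below `t` and the
ordinals below `t.card.ord` (as types `t.ToType`, `t.card.ord.ToType` of the same cardinality): there are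
`g h : Ordinal → Ordinal` with `h a < t.card.ord` and `g (h a) = a` for all `a < t`. Given `P` for
`t.card.ord` take `g (P i k)`; for `y` use the covering of `fun e => h (y e)`. -/
def StCVB : Prop := ∀ (K β : Type u) (δ m : Cardinal.{u}) (t : Ordinal.{u}),
    Cov K β δ m t.card.ord → Cov K β δ m t

/-- MODULE CVC (60 lines). PROOF. Let `G : Type u` with `#G = t.cof` and `g : G → Ordinal` with `g i < t` such
that every `a < t` has an `i` with `a < g i` (`enum_cof` with `K = t.cof.out`, and `+ 1`, as `t` is a limit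
ordinal). For every `i : G` let `ι i, P i` witness `Cov K β δ m (g i)`. Take `ι = Σ i, ι i`
(`#G = t.cof ≤ t.card < m`, `Cardinal.sum_lt_of_isRegular`). For `y` and `i : G` let `y_i e = y e` if
`y e < g i` and `0` otherwise (`0 < g i`, or skip `i` if `g i = 0`); let `I i` be given for `y_i`, and let
`I = ⋃ i, Sigma.mk i '' I i`, `#I ≤ t.cof * δ ≤ δ * δ = δ`. -/
def StCVC : Prop := ∀ (K β : Type u) (δ m : Cardinal.{u}) (t : Ordinal.{u}), m.IsRegular →
    ℵ₀ ≤ δ → t < m.ord → Order.IsSuccLimit t → t.cof ≤ δ → (∀ s < t, Cov K β δ m s) →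
    Cov K β δ m t

/-- MODULE CVD (40 lines). PROOF. For every `s : t.ToType` let `ι s, P s` witness `Cov K β δ m s.toOrd`. Take
`ι = Σ s, ι s` (`#(t.ToType) = t.card < m`, `Cardinal.sum_lt_of_isRegular`). For `y` there is `s < t` with
`y e < s` for all `e` (`exists_bd`). -/
def StCVD : Prop := ∀ (K β : Type u) (δ m : Cardinal.{u}) (t : Ordinal.{u}), m.IsRegular →
    t < m.ord → #β < t.cof → (∀ s < t, Cov K β δ m s) → Cov K β δ m t

/-- MODULE CVE (30 lines). PROOF. `ι = t.ToType` (`#ι = t.card < m`), `P i k = i.toOrd`; `I` = the set of all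
`ToType.mk ⟨y e, _⟩`, `#I ≤ #β ≤ δ`. -/
def StCVE : Prop := ∀ (K β : Type u) (δ m : Cardinal.{u}) (t : Ordinal.{u}), Nonempty K →
    t < m.ord → #β ≤ δ → Cov K β δ m t

/-- MODULE TN (theorem: StCVA → StCVB → StCVC → StCVD → StTN; 50 lines). PROOF. Let `t` be the least ordinal
with `¬ Cov K β δ m t`; `t ≤ t0`. By StCVA `#K < t.card`. By StCVB `¬ Cov K β δ m t.card.ord`, so
`t ≤ t.card.ord ≤ t` and `t` is a cardinal, infinite, so a limit ordinal (`Cardinal.isSuccLimit_ord`). By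
StCVC `δ < t.cof` and by StCVD `t.cof ≤ #β`. -/
def StTN : Prop := ∀ (K β : Type u) (δ m : Cardinal.{u}) (t0 : Ordinal.{u}), m.IsRegular →
    ℵ₀ ≤ #K → #K < m → ℵ₀ ≤ δ → t0 < m.ord → ¬ Cov K β δ m t0 →
    ∃ t ≤ t0, ¬ Cov K β δ m t ∧ #K < t.card ∧ IsCard t ∧ δ < t.cof ∧ t.cof ≤ #β

/-- MODULE ATM (50 lines). PROOF. `δ` and `b` are monotone: `δ n ≤ b n ≤ δ (n + 1)`. If `n < n'` are in `A` then
`(t n).cof ≤ b n ≤ δ (n + 1) ≤ δ n' < (t n').cof`, so `t n ≠ t n'`, and as both are cardinals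
`(t n).card ≠ (t n').card`. For `n ∈ A`, `(t n).card < m`, so `succ (t n).card ≤ m`. If `n, n' ∈ A` both have
`succ (t n).card = m` then `(t n).card = (t n').card` (`Order.succ_injective` or
`Order.succ_eq_succ_iff`), so `n = n'`. So `A` without at most one point is the set in question. -/
def StATM : Prop := ∀ (δ b : ℕ → Cardinal.{u}) (m : Cardinal.{u}) (A : Set ℕ)
    (t : ℕ → Ordinal.{u}), A.Infinite → (∀ n, δ n ≤ b n) → (∀ n, b n ≤ δ (n + 1)) →
    (∀ n ∈ A, t n < m.ord ∧ IsCard (t n) ∧ δ n < (t n).cof ∧ (t n).cof ≤ b n) →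
    {n ∈ A | Order.succ (t n).card < m}.Infinite

/-- MODULE FIN (theorem: StSUBD → StUND → StEMP → StFIN; 70 lines). PROOF. Suppose that there is no such
`l`. Then `univ` is the union of the sets `{¬ IsCard}`, `{card ≤ #K}` (small by StEMP), `{cof = ℵ₀}`,
`{ℵ₀ < cof ≤ #K}` and the sets of the last hypothesis for `n ∈ N`: if `l` is in none of the first four then `c l` is a cardinal
larger than `#K ≥ ℵ₀`, so it is a limit ordinal and `ℵ₀ ≤ cof` (`Ordinal.aleph0_le_cof`), so `ℵ₀ < cof`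
and `#K < cof`; as `l` does not have the property, some `n ∈ N` has `Cov ... s` for all `s < c l`. So
`univ` is small by StUND with a countable index type (`ULift ℕ`, with `#(ULift ℕ) = ℵ₀ ≤ ℵ₁`):
contradiction. -/
def StFIN : Prop := ∀ (K : Type u) (m : Cardinal.{u}) (L : Type u) (J : Set (Set L))
    (c : L → Ordinal.{u}) (N : Set ℕ) (δ b : ℕ → Cardinal.{u}), ℵ₀ ≤ #K → IsIdl J →
    ¬ Small K m J c univ → Small K m J c {l | ¬ IsCard (c l)} → {l | (c l).card ≤ #K} ∈ J →
    Small K m J c {l | (c l).cof = ℵ₀} → Small K m J c {l | ℵ₀ < (c l).cof ∧ (c l).cof ≤ #K} →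
    (∀ n ∈ N, Small K m J c {l | IsCard (c l) ∧ ℵ₀ < (c l).cof ∧
      ∀ s < c l, Cov K (b n).out (δ n) (c l).card s}) →
    ∃ l, IsCard (c l) ∧ #K < (c l).card ∧ ℵ₀ < (c l).cof ∧
      ∀ n ∈ N, ∃ s < c l, ¬ Cov K (b n).out (δ n) (c l).card s

/-- MODULE CUT (50 lines). PROOF. Choose `s n < t` for `n ∈ N` (and `s n = 0` otherwise, `0 < t`); by
`exists_bd_nat` there is `t' < t` with `s n < t'` for all `n`. Let `χ = max t'.card #K < t.card` (as `t` is a
cardinal, `t'.card < t.card`), `m' = succ χ ≤ t.card`, regular (`Cardinal.isRegular_succ`,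
`ℵ₀ ≤ #K ≤ χ`). `s n < t' < m'.ord` as `t'.card < m'` (`Cardinal.lt_ord`). If `Cov K _ _ m' (s n)` then
`Cov K _ _ t.card (s n)` by `Cov.mono`: contradiction. -/
def StCUT : Prop := ∀ (K : Type u) (t : Ordinal.{u}) (N : Set ℕ) (δ b : ℕ → Cardinal.{u}),
    ℵ₀ ≤ #K → IsCard t → #K < t.card → ℵ₀ < t.cof →
    (∀ n ∈ N, ∃ s < t, ¬ Cov K (b n).out (δ n) t.card s) →
    ∃ m' ≤ t.card, m'.IsRegular ∧ #K < m' ∧ ∀ n ∈ N, ∃ s < m'.ord, ¬ Cov K (b n).out (δ n) m' s

/-- MODULE SPT (30 lines). PROOF. Let `i : L → L'` be injective and `e : D ≃ D'`. For `v : L → ℕ → D` let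
`v' l' n = e (v l n)` if `l' = i l` and `v' l' n` arbitrary (e.g. `e (v l n)` for an inverse function of `i`,
`Function.invFun`; `L` is not empty or the statement is trivial) otherwise. If `V'` is as in `SP L' D'`
take `V d l n = e.symm (V' (e d) (i l) n)`. If `L` is empty take any `V`; then a `d` is needed: `D` must be
not empty, which is a hypothesis. -/
def StSPT : Prop := ∀ (L L' D D' : Type u), Nonempty D → #L ≤ #L' → #D = #D' → SP L' D' → SP L D

/-- MODULE SEQ (theorem: StSPT → StCVE → StSEQ; 90 lines). PROOF. By recursion choose pairs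
`(δ n, b n)` of cardinals below `κ`: given `δ n < κ` the hypothesis gives `b n < κ` and `t < m.ord` with
`¬ Cov K (b n).out (δ n) m t`; then `δ n < b n` by StCVE (`#((b n).out) = b n`, `Cardinal.mk_out`). Given `b n`
let `δ (n + 1) < κ` with `b n ≤ δ (n + 1)` and `SP (b n).out (δ (n + 1)).out`. Start with `ℵ₁ ≤ δ 0 < κ`. So
`δ`, `b` are monotone and for `i < n`, `b i ≤ b (n - 1)` and `SP (b (n - 1)).out (δ n).out` gives
`SP (b i).out (δ n).out` by StSPT. -/
def StSEQ : Prop := ∀ (κ : Cardinal.{u}) (K : Type u) (m : Cardinal.{u}), Nonempty K → ℵ_ 1 < κ →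
    (∀ a < κ, ∀ d < κ, ∃ d' < κ, d ≤ d' ∧ SP a.out d'.out) →
    (∀ d < κ, ∃ b < κ, ∃ t < m.ord, ¬ Cov K b.out d m t) →
    ∃ δ b : ℕ → Cardinal.{u}, (∀ n, b n < κ) ∧ (∀ n, ℵ_ 1 ≤ δ n) ∧ (∀ n, δ n ≤ b n) ∧
      (∀ n, b n ≤ δ (n + 1)) ∧ (∀ i n, i < n → SP (b i).out (δ n).out) ∧
      ∀ n, ∃ t < m.ord, ¬ Cov K (b n).out (δ n) m t

end Pool.Agent.Helper27.RV
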